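import Pool.Agent.Q97.SS.Cst

set_option autoImplicit false

/-!
# The pair correlation conjecture from the Cauchy kernels at sparse scales
-/

namespace Q97.SS

open MeasureTheory Filter Topology Set
open H370 TH803TW Pool.Agent.Y744 Q241.OP

noncomputable section

/-- passage to the limit in the integrals -/
theorem lim_int' {A : ℝ → ℝ → ℝ} {T0 : ℝ} (hmono : ∀ T, T0 ≤ T → Monotone (A T))
    {w : ℝ → ℝ} (hw : Measurable w) {G : ℝ → ℝ} (hG : IntegrableOn G (Ioi 0))
    (hb : ∀ T, T0 ≤ T → ∀ y, 0 < y → |A T y * w y| ≤ G y) {I : ℝ}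
    (hI : Tendsto (fun T => ∫ y in Ioi (0 : ℝ), A T y * w y) atTop (𝓝 I)) {u : Filter ℝ} [NeBot u]
    (hu : u ≤ atTop) {A' : ℝ → ℝ} (hA' : Monotone A')
    (hlim : ∀ y, Tendsto (fun T => A T y) u (𝓝 (A' y))) :
    ∫ y in Ioi (0 : ℝ), A' y * w y = I := by
  set q : ℕ → ℝ := TopologicalSpace.denseSeq ℝ with hq
  have hqd : DenseRange q := TopologicalSpace.denseRange_denseSeq ℝ
  have hex : ∀ n : ℕ, ∃ T : ℝ, max (n : ℝ) T0 ≤ T ∧
      ∀ j ∈ Finset.range (n + 1), |A T (q j) - A' (q j)| < 1 / ((n : ℝ) + 1) := by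
    intro n
    have h1 : ∀ᶠ T in u, max (n : ℝ) T0 ≤ T := hu (eventually_ge_atTop _)
    have h2 : ∀ᶠ T in u, ∀ j ∈ Finset.range (n + 1), |A T (q j) - A' (q j)| < 1 / ((n : ℝ) + 1) := by
      rw [Filter.eventually_all_finset]
      intro j _
      have := (Metric.tendsto_nhds.1 (hlim (q j))) (1 / ((n : ℝ) + 1)) (by positivity)
      simpa [Real.dist_eq] using this
    exact (h1.and h2).exists
  choose t ht1 ht2 using hex
  have htn : ∀ n : ℕ, (n : ℝ) ≤ t n := fun n => (le_max_left _ _).trans (ht1 n)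
  have htT : ∀ n : ℕ, T0 ≤ t n := fun n => (le_max_right _ _).trans (ht1 n)
  have htt : Tendsto t atTop atTop := tendsto_atTop_mono htn tendsto_natCast_atTop_atTop
  have hj : ∀ j, Tendsto (fun n => A (t n) (q j)) atTop (𝓝 (A' (q j))) := by
    intro j
    rw [Metric.tendsto_nhds]
    intro ε hε
    have h1 : ∀ᶠ n : ℕ in atTop, 1 / ((n : ℝ) + 1) < ε :=
      (tendsto_order.1 tendsto_one_div_add_atTop_nhds_zero_nat).2 ε hε
    filter_upwards [h1, eventually_ge_atTop j] with n hn hnj
    rw [Real.dist_eq]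
    exact (ht2 n j (Finset.mem_range.2 (by omega))).trans hn
  have hcont : ∀ x, ContinuousAt A' x → Tendsto (fun n => A (t n) x) atTop (𝓝 (A' x)) := by
    intro x hx
    rw [tendsto_order]
    constructor
    · intro a ha
      have h1 : ∀ᶠ y in 𝓝 x, a < A' y := hx.eventually_const_lt ha
      obtain ⟨δ, hδ, h2⟩ := Metric.eventually_nhds_iff.1 h1
      obtain ⟨_, ⟨j, rfl⟩, hj1, hj2⟩ := hqd.exists_between (show x - δ < x by linarith)
      have h3 : a < A' (q j) := h2 (by rw [Real.dist_eq, abs_lt]; constructor <;> linarith)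
      filter_upwards [(tendsto_order.1 (hj j)).1 a h3] with n hn
      exact hn.trans_le (hmono _ (htT n) hj2.le)
    · intro a ha
      have h1 : ∀ᶠ y in 𝓝 x, A' y < a := hx.eventually_lt_const ha
      obtain ⟨δ, hδ, h2⟩ := Metric.eventually_nhds_iff.1 h1
      obtain ⟨_, ⟨j, rfl⟩, hj1, hj2⟩ := hqd.exists_between (show x < x + δ by linarith)
      have h3 : A' (q j) < a := h2 (by rw [Real.dist_eq, abs_lt]; constructor <;> linarith)
      filter_upwards [(tendsto_order.1 (hj j)).2 a h3] with n hn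
      exact (hmono _ (htT n) hj1.le).trans_lt hn
  have hae : ∀ᵐ x, ContinuousAt A' x := by
    have := hA'.countable_not_continuousAt
    exact this.ae_notMem volume |>.mono fun x hx => by
      by_contra hc
      exact hx hc
  have h1 : Tendsto (fun n => ∫ y in Ioi (0 : ℝ), A (t n) y * w y) atTop
      (𝓝 (∫ y in Ioi (0 : ℝ), A' y * w y)) := by
    refine tendsto_integral_of_dominated_convergence _ (fun n => ?_) hG (fun n => ?_) ?_
    · exact ((hmono _ (htT n)).measurable.mul hw).aestronglyMeasurable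
    · filter_upwards [self_mem_ae_restrict measurableSet_Ioi] with y hy
      exact hb _ (htT n) y hy
    · filter_upwards [ae_restrict_of_ae hae] with x hx
      exact (hcont x hx).mul_const _
  exact tendsto_nhds_unique h1 (hI.comp htt)

/-- the bound for the integrand -/
theorem dom_A {C0 : ℝ} {a : ℝ} (ha : 0 < a) {A y : ℝ} (hy : 0 < y) (h : |A| ≤ C0 * (1 + y)) :
    |A * wr a y| ≤ C0 * (Cb a * (1 + a) ^ 5) * (1 / (1 + y) ^ 2) := by
  rw [abs_mul]
  calc |A| * |wr a y| ≤ (C0 * (1 + y)) * (Cb a * (1 + a) ^ 5 / (1 + y) ^ 3) :=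
        mul_le_mul h (wr_bound ha hy) (abs_nonneg _) ((abs_nonneg _).trans h)
    _ = _ := by field_simp

theorem AG_lin {y : ℝ} (hy : 0 ≤ y) : |AG y| ≤ 2 * (1 + y) := by
  unfold AG
  rw [if_neg (not_lt.2 hy), abs_of_nonneg (by linarith [gp_nonneg hy])]
  linarith [gp_le hy]

/-- **Sparse scales, one direction** -/
theorem Aa_of_CS {δ : ℝ} (hδ : 0 < δ) {S : Set ℝ} (hS1 : ∀ a ∈ S, δ ≤ a)
    (hS : ¬ Summable (fun a : S => 1 / (1 + (a : ℝ))))
    (h : ∀ a ∈ S, Tendsto (fun T => CS T a) atTop (𝓝 (pv a))) :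
    ∀ x, Tendsto (fun T => Aa T x) atTop (𝓝 (AG x)) := by
  obtain ⟨C0, T0, hC0, hT0, hlin⟩ := Aa_lin
  have hmono : ∀ T, T0 ≤ T → Monotone (Aa T) := fun T hT => Aa_mono (by linarith)
  intro x
  rw [tendsto_iff_ultrafilter]
  intro g hg
  have hT : ∀ᶠ T in (g : Filter ℝ), T0 ≤ T := hg (eventually_ge_atTop _)
  have hex : ∀ y, ∃ L, Tendsto (fun T => Aa T y) (g : Filter ℝ) (𝓝 L) := by
    intro y
    rcases lt_or_ge y 0 with hy | hy
    · refine ⟨0, ?_⟩
      have : (fun T => Aa T y) = fun _ => 0 := funext fun T => Aa_neg T y hy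
      rw [this]
      exact tendsto_const_nhds
    · have h1 : ((g.map fun T => Aa T y : Ultrafilter ℝ) : Filter ℝ) ≤
          𝓟 (Set.Icc (-(C0 * (1 + y))) (C0 * (1 + y))) := by
        rw [le_principal_iff]
        have h2 : ∀ᶠ T in (g : Filter ℝ), Aa T y ∈
            Set.Icc (-(C0 * (1 + y))) (C0 * (1 + y)) := by
          filter_upwards [hT] with T hT1
          exact abs_le.1 (hlin T hT1 y hy)
        exact h2
      obtain ⟨L, _, hL⟩ := isCompact_Icc.ultrafilter_le_nhds _ h1
      exact ⟨L, hL⟩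
  choose A' hlim using hex
  have hA' : Monotone A' := by
    intro a b hab
    refine le_of_tendsto_of_tendsto (hlim a) (hlim b) ?_
    filter_upwards [hT] with T hT1 using hmono T hT1 hab
  have hneg' : ∀ y, y < 0 → A' y = 0 := by
    intro y hy
    refine tendsto_nhds_unique (hlim y) ?_
    have : (fun T => Aa T y) = fun _ => 0 := funext fun T => Aa_neg T y hy
    rw [this]
    exact tendsto_const_nhds
  have hb' : ∀ y, 0 ≤ y → |A' y| ≤ C0 * (1 + y) := by
    intro y hy
    refine le_of_tendsto (hlim y).abs ?_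
    filter_upwards [hT] with T hT1 using hlin T hT1 y hy
  have h0 : 1 ≤ A' 0 := by
    refine le_of_forall_pos_le_add fun ε hε => ?_
    have h1 : ∀ᶠ T in (g : Filter ℝ), 1 - ε ≤ Aa T 0 := hg (Aa_diag hε)
    have := ge_of_tendsto (hlim 0) h1
    linarith
  -- the transforms
  have hCS : ∀ a ∈ S, ∫ y in Ioi (0 : ℝ), A' y * wr a y = pv a := by
    intro a ha
    have ha0 : 0 < a := hδ.trans_le (hS1 a ha)
    refine lim_int' hmono (wr_cont ha0).measurable
      (int_dom.const_mul (C0 * (Cb a * (1 + a) ^ 5)))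
      (fun T hT y hy => dom_A ha0 hy (hlin T hT y hy.le)) ?_ hg hA' hlim
    refine (h a ha).congr fun T => ?_
    exact CS_eq ha0 T
  set E : ℝ → ℝ := fun y => A' y - AG y with hE
  have hEm : Measurable E := hA'.measurable.sub AG_meas
  have hEb : ∀ y, 0 < y → |E y| ≤ (C0 + 2) * (1 + y) := by
    intro y hy
    have h1 := hb' y hy.le
    have h2 := AG_lin hy.le
    have h3 : |A' y - AG y| ≤ |A' y| + |AG y| := abs_sub _ _
    show |A' y - AG y| ≤ _
    linarith
  have hE0 := uniq_S hEm hEb hδ hS1 hS (fun a ha => by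
    have ha0 : 0 < a := hδ.trans_le (hS1 a ha)
    have e : (fun y => E y * wr a y) = fun y => A' y * wr a y - AG y * wr a y := by
      funext y
      rw [hE]
      ring
    rw [e, integral_sub (E_int hA'.measurable (fun y hy => hb' y hy.le) ha0)
      (E_int AG_meas (fun y hy => AG_lin hy.le) ha0), hCS a ha, AG_wr ha0, sub_self])
  -- equality everywhere
  have hAG : ∀ y, 0 ≤ y → AG y = 1 + 2 * gp y := by
    intro y hy
    unfold AG
    rw [if_neg (not_lt.2 hy)]
  have hdense : ∀ p q : ℝ, 0 ≤ p → p < q → ∃ y, p < y ∧ y < q ∧ A' y = AG y := by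
    intro p q hp hpq
    by_contra hcon
    push Not at hcon
    have h1 : volume (Ioo p q) = 0 := by
      refine measure_mono_null ?_ (ae_iff.mp hE0)
      intro y hy
      show ¬ (0 < y → E y = 0)
      intro h2
      exact hcon y hy.1 hy.2 (sub_eq_zero.mp (h2 (hp.trans_lt hy.1)))
    rw [Real.volume_Ioo, ENNReal.ofReal_eq_zero] at h1
    linarith
  have heq : ∀ y, 0 < y → A' y = AG y := by
    intro y hy
    have hc := gp_cont.continuousAt (x := y)
    apply le_antisymm
    · refine le_of_forall_pos_le_add fun ε hε => ?_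
      obtain ⟨δ', hδ', h1⟩ := Metric.continuousAt_iff.1 hc (ε / 2) (by positivity)
      obtain ⟨z, hz1, hz2, hz3⟩ := hdense y (y + δ') hy.le (by linarith)
      have h2 := h1 (x := z) (by rw [Real.dist_eq, abs_lt]; constructor <;> linarith)
      rw [Real.dist_eq, abs_lt] at h2
      have h3 := hA' hz1.le
      rw [hz3, hAG z (by linarith)] at h3
      rw [hAG y hy.le]
      linarith [h2.2]
    · refine le_of_forall_pos_le_add fun ε hε => ?_
      obtain ⟨δ', hδ', h1⟩ := Metric.continuousAt_iff.1 hc (ε / 2) (by positivity)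
      obtain ⟨z, hz1, hz2, hz3⟩ := hdense (max 0 (y - δ')) y (le_max_left _ _)
        (max_lt hy (by linarith))
      have hz4 : 0 < z := lt_of_le_of_lt (le_max_left _ _) hz1
      have hz5 : y - δ' < z := lt_of_le_of_lt (le_max_right _ _) hz1
      have h2 := h1 (x := z) (by rw [Real.dist_eq, abs_lt]; constructor <;> linarith)
      rw [Real.dist_eq, abs_lt] at h2
      have h3 := hA' hz2.le
      rw [hz3, hAG z hz4.le] at h3
      rw [hAG y hy.le]
      linarith [h2.1]
  have heq0 : A' 0 = AG 0 := by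
    rw [hAG 0 le_rfl, gp_zero, mul_zero, add_zero]
    refine le_antisymm ?_ h0
    refine le_of_forall_pos_le_add fun ε hε => ?_
    have h1 := hA' (show (0 : ℝ) ≤ ε / 2 by positivity)
    rw [heq (ε / 2) (by positivity), hAG (ε / 2) (by positivity)] at h1
    linarith [gp_le (show (0 : ℝ) ≤ ε / 2 by positivity)]
  have hall : A' x = AG x := by
    rcases lt_trichotomy x 0 with hx | hx | hx
    · rw [hneg' x hx]
      unfold AG
      rw [if_pos hx]
    · rw [hx]
      exact heq0
    · exact heq x hx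
  rw [← hall]
  exact hlim x

/-- **Sparse scales, the other direction** -/
theorem CS_of_Aa (h : ∀ x, Tendsto (fun T => Aa T x) atTop (𝓝 (AG x))) {a : ℝ} (ha : 0 < a) :
    Tendsto (fun T => CS T a) atTop (𝓝 (pv a)) := by
  obtain ⟨C0, T0, hC0, hT0, hlin⟩ := Aa_lin
  rw [← AG_wr ha]
  have h1 : Tendsto (fun T => ∫ y in Ioi (0 : ℝ), Aa T y * wr a y) atTop
      (𝓝 (∫ y in Ioi (0 : ℝ), AG y * wr a y)) := by
    refine tendsto_integral_filter_of_dominated_convergence
      (fun y => C0 * (Cb a * (1 + a) ^ 5) * (1 / (1 + y) ^ 2)) ?_ ?_ (int_dom.const_mul _) ?_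
    · filter_upwards [eventually_ge_atTop T0] with T hT
      exact ((Aa_mono (by linarith)).measurable.mul (wr_cont ha).measurable).aestronglyMeasurable
    · filter_upwards [eventually_ge_atTop T0] with T hT
      filter_upwards [self_mem_ae_restrict measurableSet_Ioi] with y hy
      exact dom_A ha hy (hlin T hT y (le_of_lt hy))
    · exact Eventually.of_forall fun y => (h y).mul_const _
  exact h1.congr fun T => (CS_eq ha T).symm

/-- the conjecture gives the counting function -/
theorem Aa_of_mont (h : Q241.OP.Mont) : ∀ x, Tendsto (fun T => Aa T x) atTop (𝓝 (AG x)) := by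
  have hlow : LowLarge 0 := lowLarge_of (A := 1) fun a ha => h a (by linarith)
  have hd := diag_lim (diag_one hlow)
  intro x
  rcases lt_trichotomy x 0 with hx | hx | hx
  · have e : (fun T => Aa T x) = fun _ => 0 := funext fun T => Aa_neg T x hx
    rw [e]
    unfold AG
    rw [if_pos hx]
    exact tendsto_const_nhds
  · rw [hx]
    unfold AG
    rw [if_neg (lt_irrefl _), gp_zero, mul_zero, add_zero]
    exact hd
  · have h1 := (Tend_iff hx.le).1 (h x hx)
    have h2 := h1.add hd
    unfold AG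
    rw [if_neg (not_lt.2 hx.le), add_comm]
    refine h2.congr fun T => ?_
    unfold Dn
    ring

/-- **Main theorem** -/
theorem main {δ : ℝ} (hδ : 0 < δ) {S : Set ℝ} (hS1 : ∀ a ∈ S, δ ≤ a)
    (hS : ¬ Summable (fun a : S => 1 / (1 + (a : ℝ)))) :
    Q241.OP.Mont ↔ ∀ a ∈ S, Tendsto (fun T => CS T a) atTop (𝓝 (pv a)) :=
  ⟨fun h a ha => CS_of_Aa (Aa_of_mont h) (hδ.trans_le (hS1 a ha)),
    fun h => Mont_of (Aa_of_CS hδ hS1 hS h)⟩

end

end Q97.SS
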