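import Mathlib

set_option autoImplicit false

/-!
# Bounded functions on a half-plane with a set of real zeros that is not too sparse
-/

namespace Q97.SS

open MeasureTheory Filter Topology Set Complex

/-- the open half-plane `Re > -1` -/
def HP : Set ℂ := {z : ℂ | -1 < z.re}

theorem isOpen_HP : IsOpen HP := isOpen_lt continuous_const Complex.continuous_re

/-- Division by a half-plane Blaschke factor. -/
theorem blaschke_step {h : ℂ → ℂ} (hh : DifferentiableOn ℂ h HP) {M : ℝ}
    (hM : ∀ w : ℂ, 0 ≤ w.re → ‖h w‖ ≤ M) {b : ℝ} (hb : 0 < b) (hz : h b = 0) :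
    ∃ h1 : ℂ → ℂ, DifferentiableOn ℂ h1 HP ∧ (∀ w : ℂ, 0 ≤ w.re → ‖h1 w‖ ≤ M) ∧
      ∀ w, h w * (w + b) = (w - b) * h1 w := by
  have hM0 : 0 ≤ M := (norm_nonneg _).trans (hM 0 (by simp))
  have hbU : HP ∈ 𝓝 (b : ℂ) := isOpen_HP.mem_nhds (by simp [HP]; linarith)
  have hds : DifferentiableOn ℂ (dslope h (b : ℂ)) HP := (differentiableOn_dslope hbU).mpr hh
  let h1 : ℂ → ℂ := fun w => dslope h b w * (w + b)
  have hd1 : DifferentiableOn ℂ h1 HP := hds.mul (differentiable_id.add_const _).differentiableOn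
  have hfac : ∀ w, h w * (w + b) = (w - b) * h1 w := by
    intro w
    have h2 : (w - b) * dslope h b w = h w := by
      have h3 := sub_smul_dslope h (b : ℂ) w
      rw [hz, sub_zero, smul_eq_mul] at h3
      exact h3
    change h w * (w + b) = (w - b) * (dslope h b w * (w + b))
    rw [← mul_assoc, h2]
  refine ⟨h1, hd1, ?_, hfac⟩
  have hsub : Metric.closedBall (b : ℂ) 1 ⊆ HP := by
    intro z hz
    rw [Metric.mem_closedBall, dist_eq_norm] at hz
    have h2 := (Complex.abs_re_le_norm (z - b)).trans hz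
    rw [Complex.sub_re, Complex.ofReal_re, abs_le] at h2
    show -1 < z.re
    linarith [h2.1]
  -- a bound in the closed half-plane
  obtain ⟨K, hK⟩ := (isCompact_closedBall (b : ℂ) 1).exists_bound_of_continuousOn
    (hd1.continuousOn.mono hsub)
  have hbd : ∀ w : ℂ, 0 ≤ w.re → ‖h1 w‖ ≤ max K (M * (1 + 2 * b)) := by
    intro w hw
    by_cases hwb : w ∈ Metric.closedBall (b : ℂ) 1
    · exact (hK w hwb).trans (le_max_left _ _)
    · refine le_trans ?_ (le_max_right _ _)
      rw [Metric.mem_closedBall, not_le, dist_eq_norm] at hwb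
      have h2 : ‖h w‖ * ‖w + b‖ = ‖w - b‖ * ‖h1 w‖ := by
        rw [← norm_mul, ← norm_mul, hfac]
      have h3 : ‖w + b‖ ≤ ‖w - b‖ + 2 * b := by
        have h4 : w + b = (w - b) + ((2 * b : ℝ) : ℂ) := by push_cast; ring
        rw [h4]
        refine (norm_add_le _ _).trans ?_
        rw [Complex.norm_real, Real.norm_eq_abs, abs_of_pos (by positivity)]
      have h5 := hM w hw
      have h6 : 0 < ‖w - b‖ := by linarith
      have h7 : ‖w - b‖ * ‖h1 w‖ ≤ ‖w - b‖ * (M * (1 + 2 * b)) := by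
        rw [← h2]
        calc ‖h w‖ * ‖w + b‖ ≤ M * (‖w - b‖ + 2 * b) :=
              mul_le_mul h5 h3 (norm_nonneg _) hM0
          _ ≤ ‖w - b‖ * (M * (1 + 2 * b)) := by
              have h8 : 0 ≤ M * (2 * b) := by positivity
              nlinarith
      exact le_of_mul_le_mul_left h7 h6
  intro w hw
  have hcl : closure {z : ℂ | 0 < z.re} ⊆ HP := by
    rw [Complex.closure_setOf_lt_re]
    intro z hz
    show -1 < z.re
    have : 0 ≤ z.re := hz
    linarith
  refine PhragmenLindelof.right_half_plane_of_bounded_on_real (f := h1)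
    (hd1.mono hcl).diffContOnCl ⟨1, by norm_num, 0, ?_⟩ ?_ ?_ hw
  · apply Asymptotics.IsBigO.of_bound (max K (M * (1 + 2 * b)))
    rw [eventually_inf_principal]
    filter_upwards with z hz
    simp only [zero_mul, Real.exp_zero, norm_one, mul_one]
    exact hbd z (le_of_lt hz)
  · refine isBoundedUnder_of_eventually_le (a := max K (M * (1 + 2 * b))) ?_
    filter_upwards [eventually_ge_atTop 0] with x hx
    exact hbd x (by simpa using hx)
  · intro x
    have h2 : ‖h (x * I)‖ * ‖(x * I : ℂ) + b‖ = ‖(x * I : ℂ) - b‖ * ‖h1 (x * I)‖ := by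
      rw [← norm_mul, ← norm_mul, hfac]
    have h3 : ‖(x * I : ℂ) + b‖ = ‖(x * I : ℂ) - b‖ := by
      rw [Complex.norm_def, Complex.norm_def]
      congr 1
      simp [Complex.normSq_apply]
    have h4 : 0 < ‖(x * I : ℂ) - b‖ := by
      rw [norm_pos_iff]
      intro h5
      have h6 := congrArg Complex.re h5
      simp at h6
      linarith
    rw [h3, mul_comm] at h2
    have h5 := mul_left_cancel₀ h4.ne' h2
    rw [← h5]
    exact hM _ (by simp)

/-- Bound by a finite product of Blaschke factors. -/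
theorem blaschke_bound (F : Finset ℝ) (hF : ∀ b ∈ F, 0 < b) : ∀ {h : ℂ → ℂ},
    DifferentiableOn ℂ h HP → ∀ {M : ℝ}, (∀ w : ℂ, 0 ≤ w.re → ‖h w‖ ≤ M) →
    (∀ b ∈ F, h (b : ℂ) = 0) →
    ∀ x : ℝ, 0 < x → ‖h x‖ ≤ M * ∏ b ∈ F, (|x - b| / (x + b)) := by
  classical
  induction F using Finset.induction_on with
  | empty =>
    intro h _ M hM _ x hx
    rw [Finset.prod_empty, mul_one]
    exact hM x (by simpa using hx.le)
  | insert b F hbF ih =>
    intro h hh M hM hz x hx
    have hb : 0 < b := hF b (Finset.mem_insert_self _ _)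
    obtain ⟨h1, hd1, hM1, hfac⟩ := blaschke_step hh hM hb (hz b (Finset.mem_insert_self _ _))
    have hz1 : ∀ c ∈ F, h1 (c : ℂ) = 0 := by
      intro c hc
      have h2 := hfac c
      rw [hz c (Finset.mem_insert_of_mem hc), zero_mul] at h2
      have h3 : (c : ℂ) - b ≠ 0 := by
        intro h4
        apply hbF
        have h5 : (c : ℂ) = b := sub_eq_zero.mp h4
        rw [← Complex.ofReal_injective h5]
        exact hc
      exact (mul_eq_zero.mp h2.symm).resolve_left h3
    have h4 := ih (fun c hc => hF c (Finset.mem_insert_of_mem hc)) hd1 hM1 hz1 x hx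
    rw [Finset.prod_insert hbF]
    have h5 : ‖h x‖ * (x + b) = |x - b| * ‖h1 x‖ := by
      have h6 := congrArg norm (hfac x)
      rw [norm_mul, norm_mul] at h6
      have e1 : ‖(x : ℂ) + b‖ = x + b := by
        rw [← Complex.ofReal_add, Complex.norm_real, Real.norm_eq_abs, abs_of_pos (by linarith)]
      have e2 : ‖(x : ℂ) - b‖ = |x - b| := by
        rw [← Complex.ofReal_sub, Complex.norm_real, Real.norm_eq_abs]
      rw [e1, e2] at h6
      exact h6
    have hxb : 0 < x + b := by linarith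
    have h7 : ‖h x‖ = |x - b| / (x + b) * ‖h1 x‖ := by
      field_simp
      rw [h5]
    rw [h7]
    calc |x - b| / (x + b) * ‖h1 x‖ ≤ |x - b| / (x + b) *
          (M * ∏ b ∈ F, (|x - b| / (x + b))) := mul_le_mul_of_nonneg_left h4 (by positivity)
      _ = _ := by ring

/-- One factor. -/
theorem factor_le {x b : ℝ} (hx : 0 < x) (hb : 1 ≤ b) :
    |x - b| / (x + b) ≤ Real.exp (-(2 * min x 1 / (1 + x)) * (1 / (1 + b))) := by
  have hxb : 0 < x + b := by linarith
  have h1 : |x - b| / (x + b) ≤ 1 - 2 * min x 1 / (1 + x) * (1 / (1 + b)) := by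
    rw [div_le_iff₀ hxb]
    have h2 : 2 * min x 1 / (1 + x) * (1 / (1 + b)) * (x + b) ≤ 2 * min x 1 := by
      have h3 : 2 * min x 1 / (1 + x) * (1 / (1 + b)) * (x + b) =
          2 * min x 1 * ((x + b) / ((1 + x) * (1 + b))) := by
        field_simp
      rw [h3]
      have h4 : (x + b) / ((1 + x) * (1 + b)) ≤ 1 := by
        rw [div_le_one (by positivity)]
        nlinarith
      have h5 : 0 ≤ 2 * min x 1 := by
        have := le_min hx.le zero_le_one
        linarith
      exact mul_le_of_le_one_right h5 h4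
    have h6 : |x - b| ≤ x + b - 2 * min x 1 := by
      rcases le_total x b with h | h
      · rw [abs_of_nonpos (by linarith)]
        have := min_le_left x 1
        linarith
      · rw [abs_of_nonneg (by linarith)]
        have := min_le_right x 1
        linarith
    linarith
  refine h1.trans ?_
  have h2 := Real.add_one_le_exp (-(2 * min x 1 / (1 + x)) * (1 / (1 + b)))
  linarith

/-- A bounded function on the right half-plane with a non-sparse set of zeros vanishes. -/
theorem vanish {h : ℂ → ℂ} (hh : DifferentiableOn ℂ h HP) {M : ℝ}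
    (hM : ∀ w : ℂ, 0 ≤ w.re → ‖h w‖ ≤ M) {S : Set ℝ} (hS1 : ∀ a ∈ S, 1 ≤ a)
    (hS : ¬ Summable (fun a : S => 1 / (1 + (a : ℝ)))) (hz : ∀ a ∈ S, h (a : ℂ) = 0)
    (x : ℝ) (hx : 0 < x) : h x = 0 := by
  classical
  have hM0 : 0 ≤ M := (norm_nonneg _).trans (hM 0 (by simp))
  set c := 2 * min x 1 / (1 + x) with hc
  have hc0 : 0 < c := by
    have : 0 < min x 1 := lt_min hx one_pos
    positivity
  have hb : ∀ K : ℝ, ‖h x‖ ≤ M * Real.exp (-(c * K)) := by
    intro K
    have h0 : ∃ s : Finset S, K < ∑ a ∈ s, 1 / (1 + (a : ℝ)) := by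
      by_contra hcon
      push Not at hcon
      exact hS (summable_of_sum_le (fun a => by
        have := hS1 a a.2
        positivity) hcon)
    obtain ⟨s, hs⟩ := h0
    let F : Finset ℝ := s.map ⟨Subtype.val, Subtype.val_injective⟩
    have hF2 : K < ∑ a ∈ F, 1 / (1 + a) := by
      rw [Finset.sum_map]
      exact hs
    have hFS : ∀ a ∈ F, a ∈ S := by
      intro a ha
      obtain ⟨b, _, rfl⟩ := Finset.mem_map.mp ha
      exact b.2
    have h1 := blaschke_bound F (fun b hb => by linarith [hS1 b (hFS b hb)]) hh hM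
      (fun b hb => hz b (hFS b hb)) x hx
    refine h1.trans (mul_le_mul_of_nonneg_left ?_ hM0)
    calc ∏ b ∈ F, (|x - b| / (x + b)) ≤ ∏ b ∈ F, Real.exp (-c * (1 / (1 + b))) := by
          apply Finset.prod_le_prod
          · intro b hb
            have := hS1 b (hFS b hb)
            positivity
          · intro b hb
            exact factor_le hx (hS1 b (hFS b hb))
      _ = Real.exp (∑ b ∈ F, -c * (1 / (1 + b))) := (Real.exp_sum _ _).symm
      _ ≤ Real.exp (-(c * K)) := by
          apply Real.exp_le_exp.mpr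
          rw [← Finset.mul_sum]
          nlinarith
  have hlim : Tendsto (fun K : ℝ => M * Real.exp (-(c * K))) atTop (𝓝 0) := by
    have h1 : Tendsto (fun K : ℝ => Real.exp (-(c * K))) atTop (𝓝 0) :=
      Real.tendsto_exp_neg_atTop_nhds_zero.comp (tendsto_id.const_mul_atTop hc0)
    have h2 := h1.const_mul M
    rwa [mul_zero] at h2
  have h3 := ge_of_tendsto' hlim hb
  exact norm_le_zero_iff.mp h3

/-- The same for functions on the half-plane `Re > 0` of polynomial growth on `Re ≥ δ / 2`, with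
zeros in `[δ, ∞)`. -/
theorem vanish' {H : ℂ → ℂ} (hH : DifferentiableOn ℂ H {z : ℂ | 0 < z.re}) {δ C : ℝ} (hδ : 0 < δ)
    {n : ℕ} (hb : ∀ z : ℂ, δ / 2 ≤ z.re → ‖H z‖ ≤ C * (1 + ‖z‖) ^ n) {S : Set ℝ}
    (hS1 : ∀ a ∈ S, δ ≤ a) (hS : ¬ Summable (fun a : S => 1 / (1 + (a : ℝ))))
    (hz : ∀ a ∈ S, H (a : ℂ) = 0) (z : ℂ) (hzr : 0 < z.re) : H z = 0 := by
  set h : ℂ → ℂ := fun w => H ((δ / 2 : ℝ) * (w + 1)) / (w + 2) ^ n with hh
  have hre : ∀ w : ℂ, (((δ / 2 : ℝ) : ℂ) * (w + 1)).re = δ / 2 * (w.re + 1) := by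
    intro w
    simp
  have hne : ∀ w : ℂ, -1 < w.re → w + 2 ≠ 0 := by
    intro w hw h0
    have := congrArg Complex.re h0
    simp at this
    linarith
  have hd : DifferentiableOn ℂ h HP := by
    refine DifferentiableOn.div ?_ (by fun_prop) (fun w hw => pow_ne_zero _ (hne w hw))
    refine hH.comp (by fun_prop) fun w hw => ?_
    show 0 < (((δ / 2 : ℝ) : ℂ) * (w + 1)).re
    rw [hre]
    have : -1 < w.re := hw
    have h2 : 0 < w.re + 1 := by linarith
    positivity
  have hbd : ∀ w : ℂ, 0 ≤ w.re → ‖h w‖ ≤ |C| * (1 + δ) ^ n := by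
    intro w hw
    have hw2 : 0 < ‖w + 2‖ := norm_pos_iff.mpr (hne w (by linarith))
    rw [hh]
    simp only
    rw [norm_div, norm_pow, div_le_iff₀ (by positivity)]
    have h1 := hb (((δ / 2 : ℝ) : ℂ) * (w + 1)) (by rw [hre]; nlinarith)
    refine h1.trans ?_
    have h2 : ‖((δ / 2 : ℝ) : ℂ) * (w + 1)‖ ≤ δ / 2 * (‖w + 2‖ + 1) := by
      rw [norm_mul, Complex.norm_real, Real.norm_of_nonneg (by positivity)]
      apply mul_le_mul_of_nonneg_left _ (by positivity)
      have h3 : w + 1 = (w + 2) - 1 := by ring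
      rw [h3]
      refine (norm_sub_le _ _).trans ?_
      rw [norm_one]
    have h3 : 1 ≤ ‖w + 2‖ := by
      have h4 := Complex.re_le_norm (w + 2)
      simp at h4
      linarith
    have h4 : 1 + ‖((δ / 2 : ℝ) : ℂ) * (w + 1)‖ ≤ (1 + δ) * ‖w + 2‖ := by
      nlinarith
    calc C * (1 + ‖((δ / 2 : ℝ) : ℂ) * (w + 1)‖) ^ n
        ≤ |C| * (1 + ‖((δ / 2 : ℝ) : ℂ) * (w + 1)‖) ^ n :=
          mul_le_mul_of_nonneg_right (le_abs_self _) (by positivity)
      _ ≤ |C| * ((1 + δ) * ‖w + 2‖) ^ n := by gcongr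
      _ = |C| * (1 + δ) ^ n * ‖w + 2‖ ^ n := by rw [mul_pow]; ring
  -- the transformed set
  set S' : Set ℝ := (fun a => 2 * a / δ - 1) '' S with hS'
  have hinj : Function.Injective (fun a : ℝ => 2 * a / δ - 1) := by
    intro a b hab
    simp only at hab
    field_simp at hab
    linarith
  have hS'1 : ∀ a ∈ S', 1 ≤ a := by
    rintro _ ⟨a, ha, rfl⟩
    have := hS1 a ha
    simp only
    rw [le_sub_iff_add_le, le_div_iff₀ hδ]
    linarith
  have hS's : ¬ Summable (fun a : S' => 1 / (1 + (a : ℝ))) := by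
    intro hsum
    apply hS
    let e : S ≃ S' := Equiv.Set.image _ S hinj
    have h1 := (e.summable_iff (f := fun a : S' => 1 / (1 + (a : ℝ)))).mpr hsum
    have h2 : ∀ a : S, ((e a : S') : ℝ) = 2 * (a : ℝ) / δ - 1 := fun a => rfl
    refine Summable.of_nonneg_of_le (fun a => ?_) (fun a => ?_) (h1.mul_left (2 / δ))
    · have := hS1 a a.2
      have : 0 < (a : ℝ) := by linarith
      positivity
    · have h3 := hS1 a a.2
      have h4 : 0 < (a : ℝ) := by linarith
      simp only [Function.comp]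
      rw [h2]
      have h5 : 1 + (2 * (a : ℝ) / δ - 1) = 2 * a / δ := by ring
      rw [h5]
      have h6 : 2 / δ * (1 / (2 * (a : ℝ) / δ)) = 1 / a := by
        field_simp
      rw [h6]
      exact one_div_le_one_div_of_le h4 (by linarith)
  have hS'z : ∀ a ∈ S', h (a : ℂ) = 0 := by
    rintro _ ⟨a, ha, rfl⟩
    rw [hh]
    simp only
    have h1 : ((δ / 2 : ℝ) : ℂ) * ((((2 * a / δ - 1 : ℝ)) : ℂ) + 1) = (a : ℂ) := by
      have hδ' : (δ : ℂ) ≠ 0 := Complex.ofReal_ne_zero.mpr hδ.ne'
      push_cast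
      field_simp
      ring
    rw [h1, hz a ha, zero_div]
  have hvan : ∀ x : ℝ, 0 < x → H ((δ / 2 * (x + 1) : ℝ) : ℂ) = 0 := by
    intro x hx
    have h1 := vanish hd hbd hS'1 hS's hS'z x hx
    rw [hh] at h1
    simp only at h1
    rw [div_eq_zero_iff] at h1
    rcases h1 with h1 | h1
    · push_cast at h1 ⊢
      exact h1
    · exact absurd h1 (pow_ne_zero _ (hne x (by simp; linarith)))
  -- the identity theorem
  have hopen : IsOpen {z : ℂ | 0 < z.re} := isOpen_lt continuous_const Complex.continuous_re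
  have hconn : IsPreconnected {z : ℂ | 0 < z.re} := (convex_halfSpace_re_gt 0).isPreconnected
  have hfreq : ∃ᶠ w in 𝓝[≠] ((δ : ℝ) : ℂ), H w = 0 := by
    have q2 : Tendsto (fun y : ℝ => (y : ℂ)) (𝓝[≠] δ) (𝓝[≠] (δ : ℂ)) := by
      apply tendsto_nhdsWithin_of_tendsto_nhds_of_eventually_within
      · exact (Complex.continuous_ofReal.tendsto δ).mono_left nhdsWithin_le_nhds
      · filter_upwards [self_mem_nhdsWithin] with y hy
        intro hcon
        exact hy (Complex.ofReal_injective hcon)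
    refine q2.frequently (Eventually.frequently ?_)
    have h1 : ∀ᶠ y : ℝ in 𝓝[≠] δ, δ / 2 < y :=
      nhdsWithin_le_nhds (lt_mem_nhds (by linarith))
    filter_upwards [h1] with y hy
    have h2 := hvan (2 * y / δ - 1) (by
      rw [sub_pos, lt_div_iff₀ hδ]
      linarith)
    have h3 : δ / 2 * (2 * y / δ - 1 + 1) = y := by
      field_simp
      ring
    rw [h3] at h2
    exact h2
  exact (hH.analyticOnNhd hopen).eqOn_zero_of_preconnected_of_frequently_eq_zero hconn
    (show (δ : ℂ) ∈ {z : ℂ | 0 < z.re} from by simpa using hδ) hfreq hzr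

end Q97.SS
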