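import Pool.Agent.Q97.SS.Lin

set_option autoImplicit false

/-!
# The predicted value
-/

namespace Q97.SS

open MeasureTheory Filter Topology Set FourierTransform
open H370 TH803TW Pool.Agent.Y744 Q241.OP
open Pool.Agent.Y749.Rig (tr fl tr_nonneg tr_cont)

noncomputable section

variable {a : ℝ}

theorem kr_cont (ha : 0 < a) : Continuous (kr a) := by
  unfold kr
  refine Continuous.div (by fun_prop) (by fun_prop) (fun y => ?_)
  have : 0 < a ^ 2 + 4 * Real.pi ^ 2 * y ^ 2 := by positivity
  exact this.ne'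

theorem kr_nonneg (ha : 0 < a) (y : ℝ) : 0 ≤ kr a y := by
  unfold kr
  positivity

theorem exp_abs_int (ha : 0 < a) : Integrable (fun α : ℝ => Real.exp (-(a * |α|))) := by
  have h1 : Integrable (fun y : ℝ => (1 + y ^ 2)⁻¹) := integrable_inv_one_add_sq
  refine (h1.const_mul (1 + 2 / a ^ 2)).mono' (Continuous.aestronglyMeasurable (by fun_prop))
    (Eventually.of_forall fun x => ?_)
  rw [Real.norm_of_nonneg (Real.exp_pos _).le, Real.exp_neg, ← div_eq_mul_inv,
    inv_eq_one_div, div_le_div_iff₀ (Real.exp_pos _) (by positivity), one_mul]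
  have h2 := Real.quadratic_le_exp_of_nonneg (x := a * |x|) (by positivity)
  have h3 : (a * |x|) ^ 2 = a ^ 2 * x ^ 2 := by rw [mul_pow, sq_abs]
  rw [h3] at h2
  have h4 : 0 ≤ a * |x| := by positivity
  have h5 : (1 + 2 / a ^ 2) * (1 + a ^ 2 * x ^ 2 / 2) =
      1 + x ^ 2 + 2 / a ^ 2 + a ^ 2 * x ^ 2 / 2 := by
    field_simp
    ring
  have h6 : 0 ≤ 2 / a ^ 2 := by positivity
  have h7 : 0 ≤ a ^ 2 * x ^ 2 / 2 := by positivity
  calc 1 + x ^ 2 ≤ (1 + 2 / a ^ 2) * (1 + a ^ 2 * x ^ 2 / 2) := by rw [h5]; linarith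
    _ ≤ (1 + 2 / a ^ 2) * Real.exp (a * |x|) := by
        apply mul_le_mul_of_nonneg_left _ (by positivity)
        linarith

theorem exp_cos (ha : 0 < a) (y : ℝ) :
    ∫ α : ℝ, Real.exp (-(a * |α|)) * Real.cos (2 * Real.pi * y * α) = kr a y := by
  have h1 : ∀ α : ℝ, Real.exp (-(a * |α|)) * Real.cos (2 * Real.pi * y * α) =
      (fun t : ℝ => Real.exp (-(a * t)) * Real.cos (2 * Real.pi * y * t)) |α| := by
    intro α
    simp only
    congr 1
    rcases abs_choice α with h | h
    · rw [h]
    · rw [h, mul_neg, Real.cos_neg]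
  rw [integral_congr_ae (Eventually.of_forall h1), integral_comp_abs
    (f := fun t : ℝ => Real.exp (-(a * t)) * Real.cos (2 * Real.pi * y * t)),
    (laplace_cos ha (2 * Real.pi * y)).2]
  unfold kr
  ring

theorem fourier_exp (ha : 0 < a) (y : ℝ) :
    𝓕 (fun α : ℝ => (Real.exp (-(a * |α|)) : ℂ)) y = (kr a y : ℂ) := by
  have hint : Integrable (fun α : ℝ => (Real.exp (-(a * |α|)) : ℂ)) := (exp_abs_int ha).ofReal
  rw [Real.fourier_eq']
  simp only [smul_eq_mul, RCLike.inner_apply, conj_trivial]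
  set G : ℝ → ℂ := fun α => Complex.exp ((-2 * Real.pi * (y * α) : ℝ) * Complex.I) *
    (Real.exp (-(a * |α|)) : ℂ) with hG
  have hGi : Integrable G := by
    refine (exp_abs_int ha).mono' ?_ (Eventually.of_forall fun α => ?_)
    · apply Continuous.aestronglyMeasurable
      fun_prop
    · rw [hG]
      simp only
      rw [norm_mul, Complex.norm_exp_ofReal_mul_I, one_mul, Complex.norm_real,
        Real.norm_of_nonneg (Real.exp_pos _).le]
  have hGre : ∀ α, (G α).re = Real.exp (-(a * |α|)) * Real.cos (2 * Real.pi * y * α) := by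
    intro α
    rw [hG]
    simp only
    rw [Complex.re_mul_ofReal, Complex.exp_ofReal_mul_I_re, mul_comm]
    congr 1
    rw [← Real.cos_neg]
    congr 1
    ring
  have hGim : ∀ α, (G α).im = -(Real.exp (-(a * |α|)) * Real.sin (2 * Real.pi * y * α)) := by
    intro α
    rw [hG]
    simp only
    rw [Complex.im_mul_ofReal, Complex.exp_ofReal_mul_I_im]
    have h5 : -2 * Real.pi * (y * α) = -(2 * Real.pi * y * α) := by ring
    rw [h5, Real.sin_neg]
    ring
  have e1 : (∫ α, G α).re = kr a y := by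
    have h := integral_re hGi
    have h2 : ∫ α, (G α).re = (∫ α, G α).re := h
    rw [← h2, integral_congr_ae (Eventually.of_forall hGre), exp_cos ha]
  have e2 : (∫ α, G α).im = 0 := by
    have h := integral_im hGi
    have h2 : ∫ α, (G α).im = (∫ α, G α).im := h
    rw [← h2]
    have h3 : ∫ α, (G α).im = -∫ α, (G α).im := by
      rw [← integral_neg]
      conv_lhs => rw [← integral_neg_eq_self]
      refine integral_congr_ae (Eventually.of_forall fun α => ?_)
      simp only
      rw [hGim, hGim, abs_neg, mul_neg, Real.sin_neg, mul_neg]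
    linarith
  apply Complex.ext
  · rw [Complex.ofReal_re, ← e1]
  · rw [Complex.ofReal_im, ← e2]

theorem kr_integrable (ha : 0 < a) : Integrable (kr a) := by
  have h1 : Integrable (fun y : ℝ => (1 + y ^ 2)⁻¹) := integrable_inv_one_add_sq
  refine (h1.const_mul (2 * a * (1 / a ^ 2 + 1))).mono' (kr_cont ha).aestronglyMeasurable
    (Eventually.of_forall fun y => ?_)
  rw [Real.norm_of_nonneg (kr_nonneg ha y)]
  unfold kr
  rw [div_eq_mul_inv, mul_assoc (2 * a)]
  apply mul_le_mul_of_nonneg_left _ (by positivity)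
  rw [← div_eq_mul_inv, inv_eq_one_div, div_le_div_iff₀ (by positivity) (by positivity), one_mul]
  have hpi := Real.pi_gt_three
  have h2 : (1 / a ^ 2 + 1) * (a ^ 2 + 4 * Real.pi ^ 2 * y ^ 2) =
      1 + 4 * Real.pi ^ 2 * y ^ 2 / a ^ 2 + a ^ 2 + 4 * Real.pi ^ 2 * y ^ 2 := by
    field_simp
    ring
  rw [h2]
  have h3 : 1 ≤ 4 * Real.pi ^ 2 := by nlinarith
  have h4 : y ^ 2 ≤ 4 * Real.pi ^ 2 * y ^ 2 := by nlinarith [sq_nonneg y]
  have h5 : 0 ≤ 4 * Real.pi ^ 2 * y ^ 2 / a ^ 2 := by positivity
  nlinarith [sq_nonneg a]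

theorem kr_cos (ha : 0 < a) (α : ℝ) :
    ∫ y : ℝ, kr a y * Real.cos (2 * Real.pi * α * y) = Real.exp (-(a * |α|)) := by
  have hcont : Continuous (fun α : ℝ => (Real.exp (-(a * |α|)) : ℂ)) := by fun_prop
  have hint : Integrable (fun α : ℝ => (Real.exp (-(a * |α|)) : ℂ)) := (exp_abs_int ha).ofReal
  have hF : 𝓕 (fun α : ℝ => (Real.exp (-(a * |α|)) : ℂ)) = fun y => (kr a y : ℂ) :=
    funext fun y => fourier_exp ha y
  have h1 := Continuous.fourierInv_fourier_eq hcont hint (by
    rw [hF]
    exact (kr_integrable ha).ofReal)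
  have h2 := congrFun h1 α
  rw [hF, Real.fourierInv_eq'] at h2
  simp only [smul_eq_mul, RCLike.inner_apply, conj_trivial] at h2
  set G : ℝ → ℂ := fun y => Complex.exp ((2 * Real.pi * (α * y) : ℝ) * Complex.I) *
    (kr a y : ℂ) with hG
  have hGi : Integrable G := by
    refine (kr_integrable ha).mono' ?_ (Eventually.of_forall fun y => ?_)
    · apply Continuous.aestronglyMeasurable
      have := kr_cont ha
      fun_prop
    · rw [hG]
      simp only
      rw [norm_mul, Complex.norm_exp_ofReal_mul_I, one_mul, Complex.norm_real,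
        Real.norm_of_nonneg (kr_nonneg ha y)]
  have h3 : ∫ y, (G y).re = (∫ y, G y).re := integral_re hGi
  have h4 : ∫ y, G y = (Real.exp (-(a * |α|)) : ℂ) := h2
  rw [h4, Complex.ofReal_re] at h3
  rw [← h3]
  refine integral_congr_ae (Eventually.of_forall fun y => ?_)
  rw [hG]
  simp only
  rw [Complex.re_mul_ofReal, Complex.exp_ofReal_mul_I_re, mul_comm]
  congr 2
  ring

theorem kr_total (ha : 0 < a) : ∫ y : ℝ, kr a y = 1 := by
  have := kr_cos ha 0
  simpa using this

theorem tri_exp (ha : 0 < a) : ∫ α : ℝ, tr 1 α * Real.exp (-(a * |α|)) =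
    2 / a - 2 * (1 - Real.exp (-a)) / a ^ 2 := by
  have h1 : ∀ α : ℝ, tr 1 α * Real.exp (-(a * |α|)) =
      (fun t : ℝ => max 0 (1 - t) * Real.exp (-(a * t))) |α| := by
    intro α
    unfold tr
    simp
  rw [integral_congr_ae (Eventually.of_forall h1),
    integral_comp_abs (f := fun t : ℝ => max 0 (1 - t) * Real.exp (-(a * t)))]
  have h2 : ∫ t in Ioi (0 : ℝ), max 0 (1 - t) * Real.exp (-(a * t)) =
      ∫ t in (0 : ℝ)..1, (1 - t) * Real.exp (-(a * t)) := by
    rw [intervalIntegral.integral_of_le zero_le_one]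
    have h3 : ∫ t in Ioi (0 : ℝ), max 0 (1 - t) * Real.exp (-(a * t)) =
        ∫ t in Ioc (0 : ℝ) 1, max 0 (1 - t) * Real.exp (-(a * t)) := by
      apply setIntegral_eq_of_subset_of_forall_sdiff_eq_zero measurableSet_Ioi
        (fun x hx => hx.1)
      intro x hx
      have hx1 : 1 < x := by
        by_contra hcon
        push Not at hcon
        exact hx.2 ⟨hx.1, hcon⟩
      rw [max_eq_left (by linarith), zero_mul]
    rw [h3]
    refine setIntegral_congr_fun measurableSet_Ioc fun x hx => ?_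
    show max 0 (1 - x) * Real.exp (-(a * x)) = (1 - x) * Real.exp (-(a * x))
    rw [max_eq_right (by linarith [hx.2])]
  rw [h2]
  have h3 : ∀ t ∈ uIcc (0 : ℝ) 1, HasDerivAt
      (fun t => -(1 - t) * Real.exp (-(a * t)) / a + Real.exp (-(a * t)) / a ^ 2)
      ((1 - t) * Real.exp (-(a * t))) t := by
    intro t _
    have e1 : HasDerivAt (fun t : ℝ => Real.exp (-(a * t))) (Real.exp (-(a * t)) * (-a)) t := by
      have h4 : HasDerivAt (fun t : ℝ => -(a * t)) (-a) t := by
        have := ((hasDerivAt_id t).const_mul a).fun_neg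
        rw [mul_one] at this
        exact this
      exact h4.exp
    have e2 : HasDerivAt (fun t : ℝ => -(1 - t)) 1 t := by
      have := ((hasDerivAt_id t).const_sub 1).fun_neg
      rw [neg_neg] at this
      exact this
    have e3 := ((e2.mul e1).div_const a).add (e1.div_const (a ^ 2))
    refine e3.congr_deriv ?_
    field_simp
    ring
  rw [intervalIntegral.integral_eq_sub_of_hasDerivAt h3 (by
    apply Continuous.intervalIntegrable
    fun_prop)]
  simp only [mul_one, mul_zero, neg_zero, Real.exp_zero, sub_self, zero_mul, zero_div, zero_add,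
    sub_zero]
  field_simp
  ring

theorem kr_S (ha : 0 < a) : ∫ y : ℝ, kr a y * S y = 2 / a - 2 * (1 - Real.exp (-a)) / a ^ 2 := by
  have htr : Integrable (tr 1) := by
    apply (tr_cont 1).integrable_of_hasCompactSupport
    refine HasCompactSupport.intro (isCompact_Icc (a := (-1 : ℝ)) (b := 1)) fun x hx => ?_
    unfold tr
    have hx1 : 1 < |x| := by
      by_contra hcon
      push Not at hcon
      exact hx (abs_le.mp hcon)
    rw [max_eq_left (by linarith), zero_div]
  have e1 : ∀ y, kr a y * S y = ∫ α : ℝ, kr a y * (tr 1 α * Real.cos (2 * Real.pi * α * y)) := by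
    intro y
    rw [integral_const_mul]
    have h := fl_tr' one_pos y
    rw [one_mul] at h
    rw [← h]
    rfl
  rw [integral_congr_ae (Eventually.of_forall e1), integral_integral_swap]
  · rw [← tri_exp ha]
    refine integral_congr_ae (Eventually.of_forall fun α => ?_)
    show ∫ y, kr a y * (tr 1 α * Real.cos (2 * Real.pi * α * y)) =
      tr 1 α * Real.exp (-(a * |α|))
    rw [← kr_cos ha α, ← integral_const_mul]
    refine integral_congr_ae (Eventually.of_forall fun y => ?_)
    show kr a y * (tr 1 α * Real.cos (2 * Real.pi * α * y)) =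
      tr 1 α * (kr a y * Real.cos (2 * Real.pi * α * y))
    ring
  · refine ((kr_integrable ha).mul_prod htr).mono' ?_ (Eventually.of_forall fun p => ?_)
    · apply Continuous.aestronglyMeasurable
      have h1 := kr_cont ha
      have h2 := tr_cont 1
      show Continuous (fun p : ℝ × ℝ => kr a p.1 * (tr 1 p.2 * Real.cos (2 * Real.pi * p.2 * p.1)))
      fun_prop
    · show ‖kr a p.1 * (tr 1 p.2 * Real.cos (2 * Real.pi * p.2 * p.1))‖ ≤ kr a p.1 * tr 1 p.2
      rw [norm_mul, norm_mul, Real.norm_of_nonneg (kr_nonneg ha _),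
        Real.norm_of_nonneg (tr_nonneg one_pos _), Real.norm_eq_abs]
      have h3 := Real.abs_cos_le_one (2 * Real.pi * p.2 * p.1)
      have h4 := kr_nonneg ha p.1
      have h5 := tr_nonneg one_pos p.2
      calc kr a p.1 * (tr 1 p.2 * |Real.cos (2 * Real.pi * p.2 * p.1)|)
          ≤ kr a p.1 * (tr 1 p.2 * 1) := by gcongr
        _ = _ := by ring

theorem S_even (y : ℝ) : S |y| = S y := by
  rcases abs_choice y with h | h
  · rw [h]
  · rw [h, S_neg]

theorem half_line (f : ℝ → ℝ) (hf : ∀ y, f |y| = f y) :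
    ∫ y in Ioi (0 : ℝ), f y = (∫ y : ℝ, f y) / 2 := by
  have h := integral_comp_abs (f := f)
  rw [integral_congr_ae (Eventually.of_forall hf)] at h
  linarith

theorem gd_eq (y : ℝ) : gd y = 1 - S y := rfl

theorem kr_gd (ha : 0 < a) : ∫ y in Ioi (0 : ℝ), kr a y * gd y =
    1 / 2 - (1 / a - (1 - Real.exp (-a)) / a ^ 2) := by
  have i1 : Integrable (fun y => kr a y * S y) := by
    refine (kr_integrable ha).mono' ((kr_cont ha).mul S_cont).aestronglyMeasurable
      (Eventually.of_forall fun y => ?_)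
    rw [Real.norm_of_nonneg (mul_nonneg (kr_nonneg ha y) (S_nonneg y))]
    exact mul_le_of_le_one_right (kr_nonneg ha y) (S_le_one y)
  have h1 : ∫ y : ℝ, kr a y * gd y = 1 - (2 / a - 2 * (1 - Real.exp (-a)) / a ^ 2) := by
    have e : (fun y => kr a y * gd y) = fun y => kr a y - kr a y * S y := by
      funext y
      rw [gd_eq]
      ring
    rw [e, integral_sub (kr_integrable ha) i1, kr_total ha, kr_S ha]
  rw [half_line (fun y => kr a y * gd y) (fun y => by
    show kr a |y| * gd |y| = kr a y * gd y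
    rw [kr_even, gd_eq, gd_eq, S_even]), h1]
  ring

theorem gp_wr_int (ha : 0 < a) : IntegrableOn (fun y => gp y * wr a y) (Ioi 0) :=
  E_int gp_cont.measurable (C0 := 1) (fun y hy => by
    rw [abs_of_nonneg (gp_nonneg hy.le)]
    linarith [gp_le hy.le]) ha

theorem gp_wr (ha : 0 < a) : ∫ y in Ioi (0 : ℝ), gp y * wr a y =
    ∫ y in Ioi (0 : ℝ), kr a y * gd y := by
  have i1 : IntegrableOn (kr a * gd) (Ioi 0) := by
    refine Integrable.integrableOn ?_
    refine (kr_integrable ha).mono' ((kr_cont ha).mul gd_cont).aestronglyMeasurable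
      (ae_of_all _ fun x => ?_)
    show ‖kr a x * gd x‖ ≤ kr a x
    rw [Real.norm_eq_abs, abs_of_nonneg (mul_nonneg (kr_nonneg ha _) (gd_nonneg _))]
    exact mul_le_of_le_one_right (kr_nonneg ha _) (gd_le _)
  have i2 : IntegrableOn ((fun x => -wr a x) * gp) (Ioi 0) := by
    have := (gp_wr_int ha).neg
    refine this.congr (ae_of_all _ fun x => ?_)
    show -(gp x * wr a x) = -wr a x * gp x
    ring
  have h := integral_Ioi_mul_deriv_eq_deriv_mul (a := (0 : ℝ)) (u := kr a) (v := gp)
    (u' := fun x => -wr a x) (v' := gd) (a' := 0) (b' := 0) (fun x _ => kr_deriv ha x)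
    (fun x _ => gp_deriv x) i1 i2 (by
      have hc : ContinuousAt (kr a * gp) 0 := ((kr_cont ha).mul gp_cont).continuousAt
      have h0 : (kr a * gp) 0 = 0 := by
        show kr a 0 * gp 0 = 0
        rw [gp_zero, mul_zero]
      have h1 := hc.tendsto
      rw [h0] at h1
      exact h1.mono_left nhdsWithin_le_nhds) (by
      have h1 : Tendsto (fun x : ℝ => 2 * a * x⁻¹) atTop (𝓝 (2 * a * 0)) :=
        tendsto_inv_atTop_zero.const_mul _
      rw [mul_zero] at h1
      refine squeeze_zero' ?_ ?_ h1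
      · filter_upwards [eventually_ge_atTop (0 : ℝ)] with x hx
        exact mul_nonneg (kr_nonneg ha x) (gp_nonneg hx)
      · filter_upwards [eventually_gt_atTop (0 : ℝ)] with x hx
        show kr a x * gp x ≤ 2 * a * x⁻¹
        have h3 := gp_le hx.le
        have h4 := gp_nonneg hx.le
        have hpi := Real.pi_gt_three
        unfold kr
        rw [div_mul_eq_mul_div, div_le_iff₀ (by positivity)]
        have h5 : 2 * a * x⁻¹ * (a ^ 2 + 4 * Real.pi ^ 2 * x ^ 2) =
            2 * a * (a ^ 2 * x⁻¹ + 4 * Real.pi ^ 2 * x) := by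
          field_simp
        rw [h5]
        apply mul_le_mul_of_nonneg_left _ (by positivity)
        have h6 : 0 < a ^ 2 * x⁻¹ := by positivity
        have h7 : 1 ≤ 4 * Real.pi ^ 2 := by nlinarith
        nlinarith)
  rw [h, sub_zero, zero_sub, ← integral_neg]
  refine integral_congr_ae (ae_of_all _ fun x => ?_)
  show gp x * wr a x = -(-wr a x * gp x)
  ring

/-- the predicted value -/
def pv (a : ℝ) : ℝ := 1 + 2 * (1 - Real.exp (-a)) / a ^ 2

theorem AG_wr (ha : 0 < a) : ∫ y in Ioi (0 : ℝ), AG y * wr a y = pv a := by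
  have e : ∫ y in Ioi (0 : ℝ), AG y * wr a y =
      ∫ y in Ioi (0 : ℝ), (wr a y + 2 * (gp y * wr a y)) := by
    refine setIntegral_congr_fun measurableSet_Ioi fun x hx => ?_
    have hx0 : (0 : ℝ) < x := hx
    show AG x * wr a x = wr a x + 2 * (gp x * wr a x)
    unfold AG
    rw [if_neg (not_lt.2 hx0.le)]
    ring
  rw [e, integral_add (wr_integrable ha) ((gp_wr_int ha).const_mul 2), wr_tail ha le_rfl,
    integral_const_mul, gp_wr ha, kr_gd ha]
  unfold kr pv
  have : a ≠ 0 := ha.ne'
  field_simp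
  ring

end

end Q97.SS
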