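import Pool.Agent.Q97.SS.Fin

set_option autoImplicit false

/-!
# Existence of a limit law from the Cauchy kernels at sparse scales, and the sums of the problem
-/

namespace Q97.SS

open MeasureTheory Filter Topology Set
open H370 TH803TW Pool.Agent.Y744 Q241.OP

noncomputable section

/-- the limits of the counting functions along an ultrafilter -/
theorem ultra_lim (g : Ultrafilter ℝ) (hg : (g : Filter ℝ) ≤ atTop) : ∃ C0 : ℝ, ∃ A' : ℝ → ℝ,
    Monotone A' ∧ (∀ y, Tendsto (fun T => Aa T y) (g : Filter ℝ) (𝓝 (A' y))) ∧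
    (∀ y, 0 ≤ y → |A' y| ≤ C0 * (1 + y)) ∧
    ∀ a, 0 < a → ∀ l, Tendsto (fun T => CS T a) atTop (𝓝 l) →
      ∫ y in Ioi (0 : ℝ), A' y * wr a y = l := by
  obtain ⟨C0, T0, hC0, hT0, hlin⟩ := Aa_lin
  have hmono : ∀ T, T0 ≤ T → Monotone (Aa T) := fun T hT => Aa_mono (by linarith)
  have hT : ∀ᶠ T in (g : Filter ℝ), T0 ≤ T := hg (eventually_ge_atTop _)
  have hex : ∀ y, ∃ L, Tendsto (fun T => Aa T y) (g : Filter ℝ) (𝓝 L) := by
    intro y
    rcases lt_or_ge y 0 with hy | hy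
    · refine ⟨0, ?_⟩
      have : (fun T => Aa T y) = fun _ => 0 := funext fun T => Aa_neg T y hy
      rw [this]
      exact tendsto_const_nhds
    · have h1 : ((g.map fun T => Aa T y : Ultrafilter ℝ) : Filter ℝ) ≤
          𝓟 (Set.Icc (-(C0 * (1 + y))) (C0 * (1 + y))) := by
        rw [le_principal_iff]
        have h2 : ∀ᶠ T in (g : Filter ℝ), Aa T y ∈
            Set.Icc (-(C0 * (1 + y))) (C0 * (1 + y)) := by
          filter_upwards [hT] with T hT1
          exact abs_le.1 (hlin T hT1 y hy)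
        exact h2
      obtain ⟨L, _, hL⟩ := isCompact_Icc.ultrafilter_le_nhds _ h1
      exact ⟨L, hL⟩
  choose A' hlim using hex
  have hA' : Monotone A' := by
    intro a b hab
    refine le_of_tendsto_of_tendsto (hlim a) (hlim b) ?_
    filter_upwards [hT] with T hT1 using hmono T hT1 hab
  have hb' : ∀ y, 0 ≤ y → |A' y| ≤ C0 * (1 + y) := by
    intro y hy
    refine le_of_tendsto (hlim y).abs ?_
    filter_upwards [hT] with T hT1 using hlin T hT1 y hy
  refine ⟨C0, A', hA', hlim, hb', fun a ha0 l hl => ?_⟩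
  refine lim_int' hmono (wr_cont ha0).measurable
    (int_dom.const_mul (C0 * (Cb a * (1 + a) ^ 5)))
    (fun T hT y hy => dom_A ha0 hy (hlin T hT y hy.le)) ?_ hg hA' hlim
  refine hl.congr fun T => ?_
  exact CS_eq ha0 T

/-- **Existence of a limit law** -/
theorem conv_of_CS {δ : ℝ} (hδ : 0 < δ) {S : Set ℝ} (hS1 : ∀ a ∈ S, δ ≤ a)
    (hS : ¬ Summable (fun a : S => 1 / (1 + (a : ℝ))))
    (h : ∀ a ∈ S, ∃ l, Tendsto (fun T => CS T a) atTop (𝓝 l)) :
    ∃ D : Set ℝ, D.Countable ∧ ∀ x, 0 < x → x ∉ D → ∃ L, Tendsto (fun T => Aa T x) atTop (𝓝 L) := by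
  choose! l hl using h
  obtain ⟨C1, A1, hA1, hlim1, hb1, ht1⟩ := ultra_lim (Ultrafilter.of atTop) (Ultrafilter.of_le _)
  refine ⟨{x | ¬ ContinuousAt A1 x}, hA1.countable_not_continuousAt, fun x hx0 hx => ⟨A1 x, ?_⟩⟩
  have hxc : ContinuousAt A1 x := by
    by_contra hcon
    exact hx hcon
  rw [tendsto_iff_ultrafilter]
  intro g hg
  obtain ⟨C2, A2, hA2, hlim2, hb2, ht2⟩ := ultra_lim g hg
  set E : ℝ → ℝ := fun y => A2 y - A1 y with hE
  have hEm : Measurable E := hA2.measurable.sub hA1.measurable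
  have hEb : ∀ y, 0 < y → |E y| ≤ (C2 + C1) * (1 + y) := by
    intro y hy
    have h1 := hb2 y hy.le
    have h2 := hb1 y hy.le
    have h3 : |A2 y - A1 y| ≤ |A2 y| + |A1 y| := abs_sub _ _
    show |A2 y - A1 y| ≤ _
    linarith
  have hE0 := uniq_S hEm hEb hδ hS1 hS (fun a ha => by
    have ha0 : 0 < a := hδ.trans_le (hS1 a ha)
    have e : (fun y => E y * wr a y) = fun y => A2 y * wr a y - A1 y * wr a y := by
      funext y
      rw [hE]
      ring
    rw [e, integral_sub (E_int hA2.measurable (fun y hy => hb2 y hy.le) ha0)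
      (E_int hA1.measurable (fun y hy => hb1 y hy.le) ha0), ht2 a ha0 _ (hl a ha),
      ht1 a ha0 _ (hl a ha), sub_self])
  have hdense : ∀ p q : ℝ, 0 ≤ p → p < q → ∃ y, p < y ∧ y < q ∧ A2 y = A1 y := by
    intro p q hp hpq
    by_contra hcon
    push Not at hcon
    have h1 : volume (Ioo p q) = 0 := by
      refine measure_mono_null ?_ (ae_iff.mp hE0)
      intro y hy
      show ¬ (0 < y → E y = 0)
      intro h2
      exact hcon y hy.1 hy.2 (sub_eq_zero.mp (h2 (hp.trans_lt hy.1)))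
    rw [Real.volume_Ioo, ENNReal.ofReal_eq_zero] at h1
    linarith
  have heq : A2 x = A1 x := by
    apply le_antisymm
    · refine le_of_forall_pos_le_add fun ε hε => ?_
      obtain ⟨δ', hδ', h1⟩ := Metric.continuousAt_iff.1 hxc ε hε
      obtain ⟨z, hz1, hz2, hz3⟩ := hdense x (x + δ') hx0.le (by linarith)
      have h2 := h1 (x := z) (by rw [Real.dist_eq, abs_lt]; constructor <;> linarith)
      rw [Real.dist_eq, abs_lt] at h2
      have h3 := hA2 hz1.le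
      rw [hz3] at h3
      linarith [h2.2]
    · refine le_of_forall_pos_le_add fun ε hε => ?_
      obtain ⟨δ', hδ', h1⟩ := Metric.continuousAt_iff.1 hxc ε hε
      obtain ⟨z, hz1, hz2, hz3⟩ := hdense (max 0 (x - δ')) x (le_max_left _ _)
        (max_lt hx0 (by linarith))
      have hz5 : x - δ' < z := lt_of_le_of_lt (le_max_right _ _) hz1
      have h2 := h1 (x := z) (by rw [Real.dist_eq, abs_lt]; constructor <;> linarith)
      rw [Real.dist_eq, abs_lt] at h2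
      have h3 := hA2 hz2.le
      rw [hz3] at h3
      linarith [h2.1]
  rw [← heq]
  exact hlim2 x

/-- in terms of the pair counts of the problem -/
theorem conv_N {δ : ℝ} (hδ : 0 < δ) {S : Set ℝ} (hS1 : ∀ a ∈ S, δ ≤ a)
    (hS : ¬ Summable (fun a : S => 1 / (1 + (a : ℝ))))
    (h : ∀ a ∈ S, ∃ l, Tendsto (fun T => CS T a) atTop (𝓝 l)) :
    ∃ D : Set ℝ, D.Countable ∧ ∀ x y, 0 < x → 0 < y → x ∉ D → y ∉ D → ∃ L : ℝ,
      Tendsto (fun T => ((Nstar T y : ℝ) - Nstar T x) / (T * Real.log T)) atTop (𝓝 L) := by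
  obtain ⟨D, hD, hc⟩ := conv_of_CS hδ hS1 hS h
  refine ⟨D, hD, fun x y hx hy hxD hyD => ?_⟩
  obtain ⟨Lx, hLx⟩ := hc x hx hxD
  obtain ⟨Ly, hLy⟩ := hc y hy hyD
  refine ⟨(Ly - Lx) / (4 * Real.pi), ?_⟩
  refine ((hLy.sub hLx).div_const (4 * Real.pi)).congr' ?_
  filter_upwards [Nq_eq x hx.le, Nq_eq y hy.le] with T h1 h2
  unfold Nq at h1 h2
  rw [sub_div (Nstar T y : ℝ), h1, h2]
  unfold Dn
  ring

/-- the sum over pairs of zeros, as a finite sum -/
theorem sum_eq (a T : ℝ) :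
    (∑ᶠ p ∈ {p : ℂ × ℂ | p.1 ∈ ZZ ∧ p.2 ∈ ZZ ∧ 0 < p.1.im ∧ p.1.im ≤ T ∧ 0 < p.2.im ∧
      p.2.im ≤ T}, (zmult p.1 : ℝ) * zmult p.2 *
        (2 * a / (a ^ 2 + ((p.1.im - p.2.im) * Real.log T) ^ 2))) / (T * Real.log T / (2 * Real.pi)) =
      CS T a := by
  classical
  have hset : {p : ℂ × ℂ | p.1 ∈ ZZ ∧ p.2 ∈ ZZ ∧ 0 < p.1.im ∧ p.1.im ≤ T ∧ 0 < p.2.im ∧
      p.2.im ≤ T} = ↑(Zt T ×ˢ Zt T) := by
    ext p
    rw [Finset.mem_coe, Finset.mem_product, mem_Zt, mem_Zt]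
    constructor
    · rintro ⟨⟨h1, h2, h3⟩, ⟨h4, h5, h6⟩, h7, h8, h9, h10⟩
      exact ⟨⟨h2, h3, h7, h8, h1⟩, ⟨h5, h6, h9, h10, h4⟩⟩
    · rintro ⟨⟨h2, h3, h7, h8, h1⟩, ⟨h5, h6, h9, h10, h4⟩⟩
      exact ⟨⟨h1, h2, h3⟩, ⟨h4, h5, h6⟩, h7, h8, h9, h10⟩
  rw [hset, finsum_mem_coe_finset, Finset.sum_product]
  unfold CS Xf
  rw [div_eq_inv_mul]
  congr 1
  refine Finset.sum_congr rfl fun s _ => Finset.sum_congr rfl fun s' _ => ?_
  have hpi := Real.pi_pos
  have e : kr a (dd T s s') = 2 * a / (a ^ 2 + ((s.im - s'.im) * Real.log T) ^ 2) := by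
    unfold kr dd
    congr 1
    field_simp
    ring
  rw [e]
  rfl

end

end Q97.SS
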