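import Mathlib

set_option autoImplicit false

/-!
# The derivative of the Cauchy kernel
-/

namespace Q97.SS

open MeasureTheory Filter Topology Set Complex

noncomputable section

/-- the Cauchy kernel -/
def kr (a y : ℝ) : ℝ := 2 * a / (a ^ 2 + 4 * Real.pi ^ 2 * y ^ 2)

/-- minus its derivative -/
def wr (a y : ℝ) : ℝ := 16 * Real.pi ^ 2 * a * y / (a ^ 2 + 4 * Real.pi ^ 2 * y ^ 2) ^ 2

/-- the denominator, for complex scales -/
def den (z : ℂ) (y : ℝ) : ℂ := z ^ 2 + ((4 * Real.pi ^ 2 * y ^ 2 : ℝ) : ℂ)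

/-- the kernel, for complex scales -/
def wz (z : ℂ) (y : ℝ) : ℂ := ((16 * Real.pi ^ 2 * y : ℝ) : ℂ) * z / den z y ^ 2

theorem wz_real (a y : ℝ) : wz a y = (wr a y : ℂ) := by
  unfold wz wr den
  push_cast
  ring

theorem den_fac (z : ℂ) (y : ℝ) :
    den z y = (z + ((2 * Real.pi * y : ℝ) : ℂ) * I) * (z - ((2 * Real.pi * y : ℝ) : ℂ) * I) := by
  have h : (z + ((2 * Real.pi * y : ℝ) : ℂ) * I) * (z - ((2 * Real.pi * y : ℝ) : ℂ) * I) =
      z ^ 2 - ((2 * Real.pi * y : ℝ) : ℂ) ^ 2 * I ^ 2 := by ring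
  rw [h, I_sq]
  unfold den
  push_cast
  ring

theorem den_lower1 {z : ℂ} (hz : 0 < z.re) (y : ℝ) : z.re ^ 2 ≤ ‖den z y‖ := by
  rw [den_fac, norm_mul, sq]
  have h1 := Complex.re_le_norm (z + ((2 * Real.pi * y : ℝ) : ℂ) * I)
  have h2 := Complex.re_le_norm (z - ((2 * Real.pi * y : ℝ) : ℂ) * I)
  rw [Complex.add_re, Complex.re_ofReal_mul, I_re, mul_zero, add_zero] at h1
  rw [Complex.sub_re, Complex.re_ofReal_mul, I_re, mul_zero, sub_zero] at h2
  exact mul_le_mul h1 h2 hz.le (norm_nonneg _)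

theorem den_lower2 (z : ℂ) (y : ℝ) : 4 * Real.pi ^ 2 * y ^ 2 - ‖z‖ ^ 2 ≤ ‖den z y‖ := by
  have h1 : ((4 * Real.pi ^ 2 * y ^ 2 : ℝ) : ℂ) = den z y - z ^ 2 := by
    unfold den
    ring
  have h2 := norm_sub_le (den z y) (z ^ 2)
  rw [← h1, Complex.norm_real, Real.norm_of_nonneg (by positivity), norm_pow] at h2
  linarith

theorem den_ne {z : ℂ} (hz : 0 < z.re) (y : ℝ) : den z y ≠ 0 := by
  rw [← norm_pos_iff]
  have := den_lower1 hz y
  have h2 : 0 < z.re ^ 2 := by positivity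
  linarith

/-- The constant of the bound. -/
def Cb (δ : ℝ) : ℝ := (1 + 5 / δ) ^ 3 + 16 * Real.pi ^ 2 / δ ^ 4

theorem Cb_pos {δ : ℝ} (hδ : 0 < δ) : 0 < Cb δ := by
  unfold Cb
  have := Real.pi_pos
  positivity

theorem wz_bound {δ : ℝ} (hδ : 0 < δ) {z : ℂ} (hz : δ ≤ z.re) {y : ℝ} (hy : 0 < y) :
    ‖wz z y‖ ≤ Cb δ * (1 + ‖z‖) ^ 5 / (1 + y) ^ 3 := by
  have hpi := Real.pi_gt_three
  have hπ := Real.pi_pos
  have hzr : 0 < z.re := by linarith
  have hzn : δ ≤ ‖z‖ := hz.trans (Complex.re_le_norm z)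
  have hz0 : 0 < ‖z‖ := by linarith
  have hden := norm_pos_iff.mpr (den_ne hzr y)
  have hCb := Cb_pos hδ
  have hw : ‖wz z y‖ = 16 * Real.pi ^ 2 * y * ‖z‖ / ‖den z y‖ ^ 2 := by
    unfold wz
    rw [norm_div, norm_mul, norm_pow, Complex.norm_real, Real.norm_of_nonneg (by positivity)]
  rw [hw, div_le_div_iff₀ (by positivity) (by positivity)]
  rcases le_or_gt (‖z‖ ^ 2) (2 * Real.pi ^ 2 * y ^ 2) with h | h
  · -- large `y`
    have h1 : 2 * Real.pi ^ 2 * y ^ 2 ≤ ‖den z y‖ := by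
      have := den_lower2 z y
      linarith
    have h2 : ‖z‖ ≤ 5 * y := by
      have h3 : ‖z‖ ^ 2 ≤ (5 * y) ^ 2 := by
        refine h.trans ?_
        have h4 : Real.pi ^ 2 ≤ 10 := by nlinarith [Real.pi_lt_d2]
        nlinarith [sq_nonneg y]
      exact le_of_sq_le_sq h3 (by positivity)
    have h3 : 1 + y ≤ (1 + 5 / δ) * y := by
      have : 1 ≤ 5 / δ * y := by
        rw [div_mul_eq_mul_div, le_div_iff₀ hδ]
        linarith
      linarith
    have h4 : (1 + y) ^ 3 ≤ (1 + 5 / δ) ^ 3 * y ^ 3 := by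
      rw [← mul_pow]
      exact pow_le_pow_left₀ (by positivity) h3 3
    have h5 : (2 * Real.pi ^ 2 * y ^ 2) ^ 2 ≤ ‖den z y‖ ^ 2 :=
      pow_le_pow_left₀ (by positivity) h1 2
    have h6 : ‖z‖ ≤ (1 + ‖z‖) ^ 5 := by
      have h7 : 1 + ‖z‖ ≤ (1 + ‖z‖) ^ 5 := le_self_pow₀ (by linarith) (by norm_num)
      linarith
    have hC : (1 + 5 / δ) ^ 3 ≤ Cb δ := by
      unfold Cb
      have : 0 ≤ 16 * Real.pi ^ 2 / δ ^ 4 := by positivity
      linarith
    calc 16 * Real.pi ^ 2 * y * ‖z‖ * (1 + y) ^ 3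
        ≤ 16 * Real.pi ^ 2 * y * ‖z‖ * ((1 + 5 / δ) ^ 3 * y ^ 3) := by gcongr
      _ = (1 + 5 / δ) ^ 3 * ‖z‖ * (16 * Real.pi ^ 2 * y ^ 4) := by ring
      _ ≤ (1 + 5 / δ) ^ 3 * ‖z‖ * (2 * Real.pi ^ 2 * y ^ 2) ^ 2 := by
          apply mul_le_mul_of_nonneg_left _ (by positivity)
          have h8 : 9 ≤ Real.pi ^ 2 := by nlinarith
          have h9 : 16 * Real.pi ^ 2 ≤ 4 * (Real.pi ^ 2) ^ 2 := by nlinarith
          calc 16 * Real.pi ^ 2 * y ^ 4 ≤ 4 * (Real.pi ^ 2) ^ 2 * y ^ 4 := by gcongr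
            _ = _ := by ring
      _ ≤ Cb δ * (1 + ‖z‖) ^ 5 * ‖den z y‖ ^ 2 := by gcongr
  · -- small `y`
    have h1 : y ≤ ‖z‖ := by
      have h2 : y ^ 2 ≤ ‖z‖ ^ 2 := by
        refine le_trans ?_ h.le
        have : 1 ≤ 2 * Real.pi ^ 2 := by nlinarith
        nlinarith [sq_nonneg y]
      exact le_of_sq_le_sq h2 (norm_nonneg _)
    have h2 : δ ^ 2 ≤ ‖den z y‖ := by
      refine le_trans ?_ (den_lower1 hzr y)
      exact pow_le_pow_left₀ hδ.le hz 2
    have h3 : δ ^ 4 ≤ ‖den z y‖ ^ 2 := by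
      calc δ ^ 4 = (δ ^ 2) ^ 2 := by ring
        _ ≤ _ := pow_le_pow_left₀ (by positivity) h2 2
    have hC : 16 * Real.pi ^ 2 / δ ^ 4 ≤ Cb δ := by
      unfold Cb
      have : 0 ≤ (1 + 5 / δ) ^ 3 := by positivity
      linarith
    calc 16 * Real.pi ^ 2 * y * ‖z‖ * (1 + y) ^ 3
        ≤ 16 * Real.pi ^ 2 * (1 + ‖z‖) * (1 + ‖z‖) * (1 + ‖z‖) ^ 3 := by
          gcongr
          · linarith
          · linarith
      _ = 16 * Real.pi ^ 2 / δ ^ 4 * (1 + ‖z‖) ^ 5 * δ ^ 4 := by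
          field_simp
      _ ≤ Cb δ * (1 + ‖z‖) ^ 5 * ‖den z y‖ ^ 2 := by gcongr

theorem wz_hasDeriv {z : ℂ} (hz : 0 < z.re) (y : ℝ) : HasDerivAt (fun w => wz w y)
    (((16 * Real.pi ^ 2 * y : ℝ) : ℂ) * (den z y - 4 * z ^ 2) / den z y ^ 3) z := by
  have h0 := den_ne hz y
  have h1 : HasDerivAt (fun w => den w y) (2 * z) z := by
    unfold den
    have := (hasDerivAt_pow 2 z).add_const (((4 * Real.pi ^ 2 * y ^ 2 : ℝ) : ℂ))
    simpa using this
  have h2 : HasDerivAt (fun w => den w y ^ 2) (2 * den z y * (2 * z)) z := by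
    have := h1.fun_pow 2
    simpa using this
  have h3 : HasDerivAt (fun w : ℂ => ((16 * Real.pi ^ 2 * y : ℝ) : ℂ) * w)
      (((16 * Real.pi ^ 2 * y : ℝ) : ℂ)) z := by
    have := (hasDerivAt_id z).const_mul (((16 * Real.pi ^ 2 * y : ℝ) : ℂ))
    rw [mul_one] at this
    exact this
  have h4 := h3.div h2 (pow_ne_zero 2 h0)
  refine h4.congr_deriv ?_
  field_simp
  ring

theorem wz_cont {z : ℂ} (hz : 0 < z.re) : Continuous (fun y : ℝ => wz z y) := by
  unfold wz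
  refine Continuous.div (by fun_prop) ?_ (fun y => pow_ne_zero 2 (den_ne hz y))
  unfold den
  fun_prop

/-- the transform of a function -/
def Ph (E : ℝ → ℝ) (z : ℂ) : ℂ := ∫ y in Ioi (0 : ℝ), (E y : ℂ) * wz z y

theorem int_dom : IntegrableOn (fun y : ℝ => 1 / (1 + y) ^ 2) (Ioi 0) := by
  have h1 := integrable_inv_one_add_sq.integrableOn (s := Ioi (0 : ℝ))
  refine h1.mono' ?_ ?_
  · apply Measurable.aestronglyMeasurable
    fun_prop
  · filter_upwards [self_mem_ae_restrict measurableSet_Ioi] with y hy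
    have hy0 : (0 : ℝ) < y := hy
    rw [Real.norm_of_nonneg (by positivity), one_div]
    apply inv_anti₀ (by positivity)
    nlinarith

variable {E : ℝ → ℝ} {C0 : ℝ}

theorem dom_bound {B y : ℝ} {w : ℂ} (hy : 0 < y) (hE : |E y| ≤ C0 * (1 + y))
    (hw : ‖w‖ ≤ B / (1 + y) ^ 3) : ‖(E y : ℂ) * w‖ ≤ C0 * B * (1 / (1 + y) ^ 2) := by
  rw [norm_mul, Complex.norm_real, Real.norm_eq_abs]
  calc |E y| * ‖w‖ ≤ (C0 * (1 + y)) * (B / (1 + y) ^ 3) :=
        mul_le_mul hE hw (norm_nonneg _) ((abs_nonneg _).trans hE)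
    _ = C0 * B * (1 / (1 + y) ^ 2) := by
        field_simp

theorem Ph_diff (hEm : Measurable E) (hE : ∀ y, 0 < y → |E y| ≤ C0 * (1 + y)) {z : ℂ}
    (hz : 0 < z.re) : DifferentiableAt ℂ (Ph E) z := by
  set δ := z.re / 4 with hδ
  have hδ0 : 0 < δ := by positivity
  set B := Cb δ * (1 + (‖z‖ + 2 * δ)) ^ 5 with hB
  have hball : ∀ w : ℂ, ‖w - z‖ ≤ 2 * δ → δ ≤ w.re ∧ ‖w‖ ≤ ‖z‖ + 2 * δ := by
    intro w hw
    have h1 := (Complex.abs_re_le_norm (w - z)).trans hw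
    rw [Complex.sub_re, abs_le] at h1
    refine ⟨by rw [hδ] at h1 ⊢; linarith [h1.1], ?_⟩
    have : w = z + (w - z) := by ring
    rw [this]
    exact (norm_add_le _ _).trans (by linarith)
  have hwb : ∀ w : ℂ, ‖w - z‖ ≤ 2 * δ → ∀ y : ℝ, 0 < y → ‖wz w y‖ ≤ B / (1 + y) ^ 3 := by
    intro w hw y hy
    obtain ⟨h1, h2⟩ := hball w hw
    refine (wz_bound hδ0 h1 hy).trans ?_
    have := Cb_pos hδ0
    rw [hB]
    gcongr
  have hder : ∀ w ∈ Metric.ball z δ, ∀ y : ℝ, 0 < y →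
      ‖((16 * Real.pi ^ 2 * y : ℝ) : ℂ) * (den w y - 4 * w ^ 2) / den w y ^ 3‖ ≤
        B / δ / (1 + y) ^ 3 := by
    intro w hw y hy
    rw [Metric.mem_ball, dist_eq_norm] at hw
    have hwr : 0 < w.re := by linarith [(hball w (by linarith)).1]
    rw [← (wz_hasDeriv hwr y).deriv]
    have h1 := Complex.norm_deriv_le_of_forall_mem_sphere_norm_le (f := fun w => wz w y) (c := w)
      (R := δ) (C := B / (1 + y) ^ 3) hδ0 ?_ ?_
    · refine h1.trans (le_of_eq ?_)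
      rw [div_right_comm]
    · apply DifferentiableOn.diffContOnCl
      rw [closure_ball w hδ0.ne']
      intro v hv
      rw [Metric.mem_closedBall, dist_eq_norm] at hv
      have h2 : ‖v - z‖ ≤ 2 * δ := by
        have : v - z = (v - w) + (w - z) := by ring
        rw [this]
        exact (norm_add_le _ _).trans (by linarith)
      have h3 : 0 < v.re := by linarith [(hball v h2).1]
      exact (wz_hasDeriv h3 y).differentiableAt.differentiableWithinAt
    · intro v hv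
      rw [mem_sphere_iff_norm] at hv
      apply hwb v _ y hy
      have : v - z = (v - w) + (w - z) := by ring
      rw [this]
      exact (norm_add_le _ _).trans (by linarith)
  have key := hasDerivAt_integral_of_dominated_loc_of_deriv_le (𝕜 := ℂ)
    (μ := volume.restrict (Ioi (0 : ℝ))) (F := fun (w : ℂ) (y : ℝ) => (E y : ℂ) * wz w y)
    (F' := fun (w : ℂ) (y : ℝ) => (E y : ℂ) *
      (((16 * Real.pi ^ 2 * y : ℝ) : ℂ) * (den w y - 4 * w ^ 2) / den w y ^ 3))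
    (x₀ := z) (s := Metric.ball z δ) (bound := fun y => C0 * (B / δ) * (1 / (1 + y) ^ 2))
    (Metric.ball_mem_nhds z hδ0) ?_ ?_ ?_ ?_ ?_ ?_
  · exact key.2.differentiableAt
  · filter_upwards [Metric.ball_mem_nhds z hδ0] with w hw
    rw [Metric.mem_ball, dist_eq_norm] at hw
    have hwr : 0 < w.re := by linarith [(hball w (by linarith)).1]
    exact ((Complex.measurable_ofReal.comp hEm).mul (wz_cont hwr).measurable).aestronglyMeasurable
  · refine (int_dom.const_mul (C0 * B)).mono' ?_ ?_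
    · exact ((Complex.measurable_ofReal.comp hEm).mul
        (wz_cont hz).measurable).aestronglyMeasurable
    · filter_upwards [self_mem_ae_restrict measurableSet_Ioi] with y hy
      exact dom_bound hy (hE y hy) (hwb z (by simp; positivity) y hy)
  · apply Measurable.aestronglyMeasurable
    apply (Complex.measurable_ofReal.comp hEm).mul
    apply Continuous.measurable
    refine Continuous.div ?_ ?_ (fun y => pow_ne_zero 3 (den_ne hz y))
    · unfold den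
      fun_prop
    · unfold den
      fun_prop
  · filter_upwards [self_mem_ae_restrict measurableSet_Ioi] with y hy w hw
    exact dom_bound hy (hE y hy) (hder w hw y hy)
  · exact int_dom.const_mul _
  · filter_upwards [self_mem_ae_restrict measurableSet_Ioi] with y hy w hw
    rw [Metric.mem_ball, dist_eq_norm] at hw
    have hwr : 0 < w.re := by linarith [(hball w (by linarith)).1]
    exact (wz_hasDeriv hwr y).const_mul _

theorem Ph_bound (hE : ∀ y, 0 < y → |E y| ≤ C0 * (1 + y)) {δ : ℝ} (hδ : 0 < δ) {z : ℂ}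
    (hz : δ ≤ z.re) :
    ‖Ph E z‖ ≤ (C0 * Cb δ * ∫ y in Ioi (0 : ℝ), 1 / (1 + y) ^ 2) * (1 + ‖z‖) ^ 5 := by
  unfold Ph
  have h1 : ‖∫ y in Ioi (0 : ℝ), (E y : ℂ) * wz z y‖ ≤
      ∫ y in Ioi (0 : ℝ), C0 * (Cb δ * (1 + ‖z‖) ^ 5) * (1 / (1 + y) ^ 2) := by
    apply norm_integral_le_of_norm_le (int_dom.const_mul _)
    filter_upwards [self_mem_ae_restrict measurableSet_Ioi] with y hy
    exact dom_bound hy (hE y hy) (wz_bound hδ hz hy)
  refine h1.trans (le_of_eq ?_)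
  rw [integral_const_mul]
  ring

theorem Ph_real (a : ℝ) : Ph E a = ((∫ y in Ioi (0 : ℝ), E y * wr a y : ℝ) : ℂ) := by
  unfold Ph
  have h : ∫ y in Ioi (0 : ℝ), ((E y * wr a y : ℝ) : ℂ) =
      ((∫ y in Ioi (0 : ℝ), E y * wr a y : ℝ) : ℂ) :=
    integral_ofReal (μ := volume.restrict (Ioi (0 : ℝ))) (𝕜 := ℂ) (f := fun y => E y * wr a y)
  rw [← h]
  refine integral_congr_ae (Eventually.of_forall fun y => ?_)
  simp only
  rw [wz_real]
  push_cast
  ring

end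

end Q97.SS
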