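import Pool.Agent.Q97.SS.Uni
import Pool.Agent.Q241.OP.Fin

set_option autoImplicit false

/-!
# Linear growth of the counting function and the sums of Cauchy kernels
-/

namespace Q97.SS

open MeasureTheory Filter Topology Set
open H370 TH803TW Pool.Agent.Y744 Q241.OP

noncomputable section

/-- The Cauchy kernel as a Laplace transform. -/
theorem laplace_cos {y : ℝ} (hy : 0 < y) (x : ℝ) :
    IntegrableOn (fun t => Real.exp (-(y * t)) * Real.cos (x * t)) (Ioi 0) ∧
    ∫ t in Ioi (0 : ℝ), Real.exp (-(y * t)) * Real.cos (x * t) = y / (y ^ 2 + x ^ 2) := by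
  set c : ℂ := ⟨-y, x⟩ with hc
  have hcr : c.re < 0 := by rw [hc]; simpa using hy
  have h1 : IntegrableOn (fun t : ℝ => Complex.exp (c * t)) (Ioi 0) :=
    integrableOn_exp_mul_complex_Ioi hcr 0
  have h2 := integral_exp_mul_complex_Ioi hcr 0
  have hre : ∀ t : ℝ, (Complex.exp (c * t)).re = Real.exp (-(y * t)) * Real.cos (x * t) := by
    intro t
    rw [Complex.exp_re]
    simp [hc]
  constructor
  · refine (h1.re).congr (Eventually.of_forall fun t => ?_)
    exact hre t
  · have h3 : ∫ t in Ioi (0 : ℝ), (Complex.exp (c * t)).re =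
        (∫ t in Ioi (0 : ℝ), Complex.exp (c * t)).re := by
      have := integral_re h1
      exact this
    rw [h2] at h3
    rw [show (fun t => Real.exp (-(y * t)) * Real.cos (x * t)) =
      fun t : ℝ => (Complex.exp (c * t)).re from funext fun t => (hre t).symm, h3]
    simp only [Complex.ofReal_zero, mul_zero, Complex.exp_zero, Complex.div_re, Complex.neg_re,
      Complex.one_re, Complex.neg_im, Complex.one_im, hc, Complex.normSq_mk]
    have : 0 < y ^ 2 + x ^ 2 := by positivity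
    have h4 : -y * -y + x * x = y ^ 2 + x ^ 2 := by ring
    rw [h4]
    ring

/-- Positive definiteness of the Cauchy kernels, with scales. -/
theorem pd_scale {ι : Type*} (S : Finset ι) (m v : ι → ℝ) {y : ℝ} (hy : 1 ≤ y) :
    ∑ s ∈ S, ∑ s' ∈ S, m s * m s' * (y ^ 2 / (y ^ 2 + (v s - v s') ^ 2)) ≤
      y * ∑ s ∈ S, ∑ s' ∈ S, m s * m s' * (1 / (1 + (v s - v s') ^ 2)) := by
  have hy0 : 0 < y := by linarith
  set Q : ℝ → ℝ := fun t => (∑ s ∈ S, m s * Real.cos (v s * t)) ^ 2 +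
    (∑ s ∈ S, m s * Real.sin (v s * t)) ^ 2 with hQ
  have hQe : ∀ t, Q t = ∑ s ∈ S, ∑ s' ∈ S, m s * m s' * Real.cos ((v s - v s') * t) := by
    intro t
    rw [hQ]
    simp only
    rw [sq, sq, Finset.sum_mul_sum, Finset.sum_mul_sum, ← Finset.sum_add_distrib]
    refine Finset.sum_congr rfl fun s _ => ?_
    rw [← Finset.sum_add_distrib]
    refine Finset.sum_congr rfl fun s' _ => ?_
    rw [sub_mul, Real.cos_sub]
    ring
  have hQ0 : ∀ t, 0 ≤ Q t := fun t => by
    rw [hQ]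
    positivity
  have key : ∀ z : ℝ, 0 < z →
      IntegrableOn (fun t => Real.exp (-(z * t)) * Q t) (Ioi 0) ∧
      ∫ t in Ioi (0 : ℝ), Real.exp (-(z * t)) * Q t =
        ∑ s ∈ S, ∑ s' ∈ S, m s * m s' * (z / (z ^ 2 + (v s - v s') ^ 2)) := by
    intro z hz
    have e : (fun t => Real.exp (-(z * t)) * Q t) = fun t => ∑ s ∈ S, ∑ s' ∈ S, m s * m s' *
        (Real.exp (-(z * t)) * Real.cos ((v s - v s') * t)) := by
      funext t
      rw [hQe, Finset.mul_sum]
      refine Finset.sum_congr rfl fun s _ => ?_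
      rw [Finset.mul_sum]
      refine Finset.sum_congr rfl fun s' _ => ?_
      ring
    have hi : ∀ s s' : ι, Integrable (fun t => m s * m s' *
        (Real.exp (-(z * t)) * Real.cos ((v s - v s') * t))) (volume.restrict (Ioi (0 : ℝ))) :=
      fun s s' => (laplace_cos hz (v s - v s')).1.const_mul _
    constructor
    · rw [e]
      exact integrable_finsetSum _ fun s _ => integrable_finsetSum _ fun s' _ => hi s s'
    · rw [e, integral_finsetSum _ fun s _ => integrable_finsetSum _ fun s' _ => hi s s']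
      refine Finset.sum_congr rfl fun s _ => ?_
      rw [integral_finsetSum _ fun s' _ => hi s s']
      refine Finset.sum_congr rfl fun s' _ => ?_
      rw [integral_const_mul, (laplace_cos hz (v s - v s')).2]
  have h1 := key y hy0
  have h2 := key 1 one_pos
  have h3 : ∫ t in Ioi (0 : ℝ), Real.exp (-(y * t)) * Q t ≤
      ∫ t in Ioi (0 : ℝ), Real.exp (-(1 * t)) * Q t := by
    refine setIntegral_mono_on h1.1 h2.1 measurableSet_Ioi fun t ht => ?_
    apply mul_le_mul_of_nonneg_right _ (hQ0 t)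
    apply Real.exp_le_exp.mpr
    have ht0 : (0 : ℝ) < t := ht
    nlinarith
  rw [h1.2, h2.2] at h3
  have h4 : ∑ s ∈ S, ∑ s' ∈ S, m s * m s' * (y ^ 2 / (y ^ 2 + (v s - v s') ^ 2)) =
      y * ∑ s ∈ S, ∑ s' ∈ S, m s * m s' * (y / (y ^ 2 + (v s - v s') ^ 2)) := by
    rw [Finset.mul_sum]
    refine Finset.sum_congr rfl fun s _ => ?_
    rw [Finset.mul_sum]
    refine Finset.sum_congr rfl fun s' _ => ?_
    ring
  rw [h4]
  apply mul_le_mul_of_nonneg_left _ hy0.le
  simpa using h3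

/-- The sum of the kernels `1 / (1 + x ^ 2)`. -/
theorem cauchy_bound : ∃ C0 T0 : ℝ, 0 ≤ C0 ∧ 20 ≤ T0 ∧ ∀ T : ℝ, T0 ≤ T →
    ∑ s ∈ Zt T, ∑ s' ∈ Zt T, mz s * mz s' * (1 / (1 + (dd T s s') ^ 2)) ≤ C0 * Xf T := by
  obtain ⟨C, B0, V0, hC, hB0, hV0, hblk, hloc⟩ := PPB
  have hpi := Real.pi_pos
  refine ⟨3200 * (B0 + C) * (2 * Real.pi), V0, by positivity, hV0, fun T hT => ?_⟩
  have hT20 : 20 ≤ T := hV0.trans hT
  have hL1 : 1 ≤ Real.log T := by
    rw [Real.le_log_iff_exp_le (by linarith)]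
    linarith [Real.exp_one_lt_d9]
  have h2 := QS_abs_bound (x := fun s : ℂ => s.im) (Zt T) (Zt T) mz_nonneg
    (f := fun x : ℝ => 1 / (1 + x ^ 2)) (K := 1) (fun x => by
      rw [abs_of_nonneg (by positivity)]) (Λ := Real.log T) (by linarith) one_pos
  have h3 := hloc T hT (Real.log T) le_rfl
  have h4 : B0 ≤ B0 * (T * Real.log T) := by
    have : 1 ≤ T * Real.log T := by nlinarith
    nlinarith
  have h1 : ∑ s ∈ Zt T, ∑ s' ∈ Zt T, mz s * mz s' * (1 / (1 + (dd T s s') ^ 2)) =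
      ∑ s ∈ Zt T, ∑ s' ∈ Zt T, mz s * mz s' *
        |(fun x : ℝ => 1 / (1 + x ^ 2)) ((s.im - s'.im) * Real.log T / (2 * Real.pi))| := by
    refine Finset.sum_congr rfl fun s _ => Finset.sum_congr rfl fun s' _ => ?_
    have e : |(fun x : ℝ => 1 / (1 + x ^ 2)) ((s.im - s'.im) * Real.log T / (2 * Real.pi))| =
        1 / (1 + (dd T s s') ^ 2) := by
      unfold dd
      rw [abs_of_nonneg (by positivity)]
    rw [e]
  rw [h1]
  refine h2.trans ?_
  have e : 3200 * (B0 + C) * (2 * Real.pi) * Xf T = 3200 * ((B0 + C) * (T * Real.log T)) := by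
    unfold Xf
    field_simp
  rw [e]
  linarith

/-- Linear growth. -/
theorem Aa_lin : ∃ C0 T0 : ℝ, 0 ≤ C0 ∧ 20 ≤ T0 ∧ ∀ T : ℝ, T0 ≤ T → ∀ y : ℝ, 0 ≤ y →
    |Aa T y| ≤ C0 * (1 + y) := by
  obtain ⟨C0, T0, hC0, hT0, h⟩ := cauchy_bound
  refine ⟨2 * C0, T0, by positivity, hT0, fun T hT y hy => ?_⟩
  have hX := Xf_pos (V := T) (by linarith)
  have hbig : ∀ z : ℝ, 1 ≤ z → |Aa T z| ≤ 2 * C0 * z := by
    intro z hz
    unfold Aa
    rw [abs_of_nonneg (mul_nonneg (inv_nonneg.2 hX.le) (PC_nonneg _ _)), inv_mul_le_iff₀ hX]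
    have h1 : PC T {x | |x| ≤ z} ≤
        2 * ∑ s ∈ Zt T, ∑ s' ∈ Zt T, mz s * mz s' * (z ^ 2 / (z ^ 2 + (dd T s s') ^ 2)) := by
      unfold PC
      rw [Finset.mul_sum]
      refine Finset.sum_le_sum fun s _ => ?_
      rw [Finset.mul_sum]
      refine Finset.sum_le_sum fun s' _ => ?_
      have hm : 0 ≤ mz s * mz s' := mul_nonneg (mz_nonneg _) (mz_nonneg _)
      show mz s * mz s' * Set.indicator {x | |x| ≤ z} (fun _ => (1 : ℝ)) (dd T s s') ≤ _
      set x := dd T s s'
      have h2 : Set.indicator {x | |x| ≤ z} (fun _ => (1 : ℝ)) x ≤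
          2 * (z ^ 2 / (z ^ 2 + x ^ 2)) := by
        by_cases hx : |x| ≤ z
        · have h3 : x ^ 2 ≤ z ^ 2 := by
            rw [← sq_abs x]
            exact pow_le_pow_left₀ (abs_nonneg _) hx 2
          rw [Set.indicator_of_mem (show x ∈ {x | |x| ≤ z} from hx), mul_div_assoc',
            le_div_iff₀ (by positivity), one_mul]
          linarith
        · rw [Set.indicator_of_notMem (show x ∉ {x | |x| ≤ z} from hx)]
          positivity
      have h3 := mul_le_mul_of_nonneg_left h2 hm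
      linarith
    set v : ℂ → ℝ := fun s => s.im * Real.log T / (2 * Real.pi) with hv
    have hdv : ∀ s s' : ℂ, dd T s s' = v s - v s' := by
      intro s s'
      rw [hv]
      unfold dd
      ring
    have h4 := pd_scale (Zt T) mz v hz
    simp only [← hdv] at h4
    calc PC T {x | |x| ≤ z} ≤ _ := h1
      _ ≤ 2 * (z * (C0 * Xf T)) := by
          refine mul_le_mul_of_nonneg_left (h4.trans ?_) (by norm_num)
          exact mul_le_mul_of_nonneg_left (h T hT) (by linarith)
      _ = Xf T * (2 * C0 * z) := by ring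
  rcases le_or_gt 1 y with h1 | h1
  · refine (hbig y h1).trans ?_
    nlinarith
  · have h2 : |Aa T y| ≤ |Aa T 1| := by
      have hT1 : 1 < T := by linarith
      rw [abs_of_nonneg (Aa_nonneg hT1 y), abs_of_nonneg (Aa_nonneg hT1 1)]
      exact Aa_mono hT1 h1.le
    refine h2.trans ((hbig 1 le_rfl).trans ?_)
    nlinarith

/-- the normalised sum of the kernels -/
def CS (T a : ℝ) : ℝ := (Xf T)⁻¹ * ∑ s ∈ Zt T, ∑ s' ∈ Zt T, mz s * mz s' * kr a (dd T s s')

theorem kr_deriv {a : ℝ} (ha : 0 < a) (y : ℝ) : HasDerivAt (kr a) (-wr a y) y := by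
  have h0 : 0 < a ^ 2 + 4 * Real.pi ^ 2 * y ^ 2 := by positivity
  have h1 : HasDerivAt (fun y : ℝ => a ^ 2 + 4 * Real.pi ^ 2 * y ^ 2)
      (4 * Real.pi ^ 2 * (2 * y)) y := by
    have := ((hasDerivAt_pow 2 y).const_mul (4 * Real.pi ^ 2)).const_add (a ^ 2)
    simpa using this
  have h2 := (hasDerivAt_const y (2 * a)).div h1 h0.ne'
  refine h2.congr_deriv ?_
  unfold wr
  field_simp
  ring

theorem kr_tendsto {a : ℝ} : Tendsto (kr a) atTop (𝓝 0) := by
  unfold kr
  apply Tendsto.div_atTop tendsto_const_nhds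
  apply tendsto_atTop_add_const_left
  exact (tendsto_pow_atTop two_ne_zero).const_mul_atTop (by positivity)

theorem wr_integrable {a : ℝ} (ha : 0 < a) : IntegrableOn (wr a) (Ioi 0) := by
  have h := E_int (E := fun _ => 1) (C0 := 1) measurable_const (fun y hy => by
    rw [abs_one]; linarith) ha
  simpa using h

theorem wr_tail {a : ℝ} (ha : 0 < a) {x : ℝ} (hx : 0 ≤ x) :
    ∫ y in Ioi x, wr a y = kr a x := by
  have h1 := integral_Ioi_of_hasDerivAt_of_tendsto' (a := x) (f := kr a) (f' := fun y => -wr a y)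
    (fun y _ => kr_deriv ha y) ((wr_integrable ha).mono_set (Ioi_subset_Ioi hx)).neg kr_tendsto
  rw [integral_neg, zero_sub] at h1
  linarith

theorem kr_even (a x : ℝ) : kr a |x| = kr a x := by
  unfold kr
  rw [sq_abs]

theorem pair_int {a : ℝ} (ha : 0 < a) (x : ℝ) :
    IntegrableOn (fun y => Set.indicator {x | |x| ≤ y} (fun _ => (1 : ℝ)) x * wr a y) (Ioi 0) ∧
    ∫ y in Ioi (0 : ℝ), Set.indicator {x | |x| ≤ y} (fun _ => (1 : ℝ)) x * wr a y = kr a x := by
  have e : (fun y => Set.indicator {x | |x| ≤ y} (fun _ => (1 : ℝ)) x * wr a y) =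
      (Ici |x|).indicator (wr a) := by
    funext y
    by_cases h : |x| ≤ y
    · rw [Set.indicator_of_mem (show x ∈ {x | |x| ≤ y} from h),
        Set.indicator_of_mem (show y ∈ Ici |x| from h), one_mul]
    · rw [Set.indicator_of_notMem (show x ∉ {x | |x| ≤ y} from h),
        Set.indicator_of_notMem (show y ∉ Ici |x| from h), zero_mul]
  constructor
  · rw [e]
    exact (wr_integrable ha).indicator measurableSet_Ici
  · rw [e, setIntegral_indicator measurableSet_Ici, ← kr_even, ← wr_tail ha (abs_nonneg x)]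
    apply setIntegral_congr_set
    have h1 : (Ioi (0 : ℝ) ∩ Ici |x| : Set ℝ) =ᵐ[volume] (Ioi (0 : ℝ) ∩ Ioi |x| : Set ℝ) :=
      (ae_eq_refl _).inter Ioi_ae_eq_Ici.symm
    have h2 : (Ioi (0 : ℝ) ∩ Ioi |x| : Set ℝ) = Ioi |x| := by
      rw [Ioi_inter_Ioi, sup_eq_right.mpr (abs_nonneg x)]
    exact h1.trans (Filter.EventuallyEq.of_eq h2)

/-- Abel summation. -/
theorem CS_eq {a : ℝ} (ha : 0 < a) (T : ℝ) : CS T a = ∫ y in Ioi (0 : ℝ), Aa T y * wr a y := by
  have e : (fun y => Aa T y * wr a y) = fun y => (Xf T)⁻¹ * ∑ s ∈ Zt T, ∑ s' ∈ Zt T,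
      mz s * mz s' * (Set.indicator {x | |x| ≤ y} (fun _ => (1 : ℝ)) (dd T s s') * wr a y) := by
    funext y
    unfold Aa PC
    rw [mul_assoc, Finset.sum_mul]
    congr 1
    refine Finset.sum_congr rfl fun s _ => ?_
    rw [Finset.sum_mul]
    refine Finset.sum_congr rfl fun s' _ => ?_
    ring
  have hi : ∀ s s' : ℂ, Integrable (fun y => mz s * mz s' *
      (Set.indicator {x | |x| ≤ y} (fun _ => (1 : ℝ)) (dd T s s') * wr a y))
      (volume.restrict (Ioi (0 : ℝ))) := fun s s' => (pair_int ha _).1.const_mul _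
  rw [e, integral_const_mul, integral_finsetSum _ fun s _ =>
    integrable_finsetSum _ fun s' _ => hi s s']
  unfold CS
  congr 1
  refine Finset.sum_congr rfl fun s _ => ?_
  rw [integral_finsetSum _ fun s' _ => hi s s']
  refine Finset.sum_congr rfl fun s' _ => ?_
  rw [integral_const_mul, (pair_int ha _).2]

end

end Q97.SS
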