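import Pool.Agent.Q97.SS.Ker
import Pool.Agent.Q97.SS.Bla

set_option autoImplicit false

/-!
# Uniqueness from the Cauchy kernels
-/

namespace Q97.SS

open MeasureTheory Filter Topology Set Complex

noncomputable section

/-- the compactified variable -/
def uu (y : ℝ) : ℝ := 1 / (1 + 4 * Real.pi ^ 2 * y ^ 2)

theorem uu_pos (y : ℝ) : 0 < uu y := by
  unfold uu
  positivity

theorem uu_le (y : ℝ) : uu y ≤ 1 := by
  unfold uu
  rw [div_le_one (by positivity)]
  have : 0 ≤ 4 * Real.pi ^ 2 * y ^ 2 := by positivity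
  linarith

theorem uu_cont : Continuous uu := by
  unfold uu
  refine Continuous.div (by fun_prop) (by fun_prop) (fun y => ?_)
  have : 0 ≤ 4 * Real.pi ^ 2 * y ^ 2 := by positivity
  linarith

theorem wr_cont {a : ℝ} (ha : 0 < a) : Continuous (wr a) := by
  unfold wr
  refine Continuous.div (by fun_prop) (by fun_prop) (fun y => ?_)
  have : 0 < a ^ 2 + 4 * Real.pi ^ 2 * y ^ 2 := by positivity
  positivity

theorem wr_pos {a y : ℝ} (ha : 0 < a) (hy : 0 < y) : 0 < wr a y := by
  unfold wr
  have := Real.pi_pos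
  positivity

theorem wr_bound {a : ℝ} (ha : 0 < a) {y : ℝ} (hy : 0 < y) :
    |wr a y| ≤ Cb a * (1 + a) ^ 5 / (1 + y) ^ 3 := by
  have h := wz_bound ha (z := (a : ℂ)) (by simp) hy
  rw [wz_real, Complex.norm_real, Complex.norm_real, Real.norm_of_nonneg ha.le,
    Real.norm_eq_abs] at h
  exact h

variable {E : ℝ → ℝ} {C0 : ℝ}

theorem E_int (hEm : Measurable E) (hE : ∀ y, 0 < y → |E y| ≤ C0 * (1 + y)) {a : ℝ} (ha : 0 < a) :
    IntegrableOn (fun y => E y * wr a y) (Ioi 0) := by
  refine (int_dom.const_mul (C0 * (Cb a * (1 + a) ^ 5))).mono'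
    (hEm.mul (wr_cont ha).measurable).aestronglyMeasurable ?_
  filter_upwards [self_mem_ae_restrict measurableSet_Ioi] with y hy
  have hy0 : (0 : ℝ) < y := hy
  rw [norm_mul, Real.norm_eq_abs, Real.norm_eq_abs]
  calc |E y| * |wr a y| ≤ (C0 * (1 + y)) * (Cb a * (1 + a) ^ 5 / (1 + y) ^ 3) :=
        mul_le_mul (hE y hy0) (wr_bound ha hy0) (abs_nonneg _) ((abs_nonneg _).trans (hE y hy0))
    _ = _ := by field_simp

/-- the derivatives -/
def Jn (E : ℝ → ℝ) (n : ℕ) (w : ℝ) : ℝ :=
  ∫ y in Ioi (0 : ℝ), E y * wr 1 y * uu y ^ n / (1 + w * uu y) ^ (n + 2)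

theorem one_add_ge {w : ℝ} (hw : |w| ≤ 1 / 2) (y : ℝ) : 1 / 2 ≤ 1 + w * uu y := by
  have h1 := uu_pos y
  have h2 := uu_le y
  have h3 := abs_le.mp hw
  nlinarith [h3.1]

theorem Jn_deriv (hEm : Measurable E) (hE : ∀ y, 0 < y → |E y| ≤ C0 * (1 + y)) (n : ℕ) {w : ℝ}
    (hw : |w| < 1 / 2) : HasDerivAt (Jn E n) (-(n + 2) * Jn E (n + 1) w) w := by
  have hF := E_int hEm hE one_pos
  have hm : ∀ (v : ℝ) (m k : ℕ), |v| ≤ 1 / 2 → AEStronglyMeasurable
      (fun y => E y * wr 1 y * uu y ^ m / (1 + v * uu y) ^ k)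
      (volume.restrict (Ioi (0 : ℝ))) := by
    intro v m k _
    have h1 := uu_cont.measurable
    have h2 := (wr_cont one_pos).measurable
    apply Measurable.aestronglyMeasurable
    fun_prop
  have hsmall : ∀ v ∈ Metric.ball w ((1 / 2 - |w|)), |v| ≤ 1 / 2 := by
    intro v hv
    rw [Metric.mem_ball, Real.dist_eq] at hv
    have : |v| ≤ |v - w| + |w| := by
      have h2 := abs_add_le (v - w) w
      rwa [sub_add_cancel] at h2
    linarith
  have hbd : ∀ (v : ℝ) (m k : ℕ), |v| ≤ 1 / 2 → ∀ y,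
      |E y * wr 1 y * uu y ^ m / (1 + v * uu y) ^ k| ≤ 2 ^ k * |E y * wr 1 y| := by
    intro v m k hv y
    have h1 := one_add_ge hv y
    have h0 : 0 < 1 + v * uu y := by linarith
    have h2 : uu y ^ m ≤ 1 := pow_le_one₀ (uu_pos y).le (uu_le y)
    have h3 := uu_pos y
    rw [abs_div, abs_mul (E y * wr 1 y), abs_of_pos (pow_pos h0 k), abs_of_pos (pow_pos h3 m),
      div_le_iff₀ (pow_pos h0 k)]
    have h4 : 1 ≤ 2 ^ k * (1 + v * uu y) ^ k := by
      rw [← mul_pow]
      exact one_le_pow₀ (by linarith)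
    calc |E y * wr 1 y| * uu y ^ m ≤ |E y * wr 1 y| * 1 := by gcongr
      _ ≤ |E y * wr 1 y| * (2 ^ k * (1 + v * uu y) ^ k) := by gcongr
      _ = _ := by ring
  have key := hasDerivAt_integral_of_dominated_loc_of_deriv_le (𝕜 := ℝ)
    (μ := volume.restrict (Ioi (0 : ℝ)))
    (F := fun v y => E y * wr 1 y * uu y ^ n / (1 + v * uu y) ^ (n + 2))
    (F' := fun v y => -(n + 2) * (E y * wr 1 y * uu y ^ (n + 1) / (1 + v * uu y) ^ (n + 1 + 2)))
    (x₀ := w) (s := Metric.ball w (1 / 2 - |w|))
    (bound := fun y => (n + 2) * (2 ^ (n + 1 + 2) * |E y * wr 1 y|))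
    (Metric.ball_mem_nhds w (by linarith)) ?_ ?_ ?_ ?_ ?_ ?_
  · have h2 := key.2
    rw [integral_const_mul] at h2
    exact h2
  · filter_upwards [Metric.ball_mem_nhds w (show 0 < 1 / 2 - |w| by linarith)] with v hv
    exact hm v n (n + 2) (hsmall v hv)
  · refine (hF.norm.const_mul (2 ^ (n + 2))).mono' (hm w n (n + 2) hw.le) ?_
    exact Eventually.of_forall fun y => hbd w n (n + 2) hw.le y
  · exact (hm w (n + 1) (n + 1 + 2) hw.le).const_mul _
  · refine Eventually.of_forall fun y v hv => ?_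
    rw [norm_mul, Real.norm_eq_abs, Real.norm_eq_abs, abs_neg, abs_of_nonneg (by positivity)]
    exact mul_le_mul_of_nonneg_left (hbd v (n + 1) (n + 1 + 2) (hsmall v hv) y) (by positivity)
  · exact (hF.norm.const_mul _).const_mul _
  · refine Eventually.of_forall fun y v hv => ?_
    have h0 : 0 < 1 + v * uu y := by linarith [one_add_ge (hsmall v hv) y]
    have h1 : HasDerivAt (fun v : ℝ => 1 + v * uu y) (uu y) v := by
      have := ((hasDerivAt_id v).mul_const (uu y)).const_add 1
      rw [one_mul] at this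
      exact this
    have h2 : HasDerivAt (fun v : ℝ => (1 + v * uu y) ^ (n + 2))
        (((n + 2 : ℕ) : ℝ) * (1 + v * uu y) ^ (n + 1) * uu y) v := by
      have := h1.fun_pow (n + 2)
      simpa using this
    have h3 := (h2.inv (pow_ne_zero _ h0.ne')).const_mul (E y * wr 1 y * uu y ^ n)
    refine (h3.congr_deriv ?_).congr_of_eventuallyEq ?_
    · push_cast
      field_simp
      ring
    · exact Eventually.of_forall fun v => by
        simp only [Pi.inv_apply]
        rw [div_eq_mul_inv]

theorem Jn_zero (hEm : Measurable E) (hE : ∀ y, 0 < y → |E y| ≤ C0 * (1 + y))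
    (h : ∀ a : ℝ, 0 < a → ∫ y in Ioi (0 : ℝ), E y * wr a y = 0) (n : ℕ) :
    ∀ w : ℝ, |w| < 1 / 2 → Jn E n w = 0 := by
  induction n with
  | zero =>
    intro w hw
    have hw1 : 0 < 1 + w := by
      have := (abs_lt.mp hw).1
      linarith
    have h1 := h (√(1 + w)) (Real.sqrt_pos.mpr hw1)
    have h2 : ∫ y in Ioi (0 : ℝ), E y * wr (√(1 + w)) y = √(1 + w) * Jn E 0 w := by
      unfold Jn
      rw [← integral_const_mul]
      refine integral_congr_ae (Eventually.of_forall fun y => ?_)
      simp only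
      have h3 : (0 : ℝ) < 1 + 4 * Real.pi ^ 2 * y ^ 2 := by positivity
      have h4 : (0 : ℝ) < 1 + w + 4 * Real.pi ^ 2 * y ^ 2 := by positivity
      unfold wr uu
      rw [Real.sq_sqrt hw1.le]
      have h5 : 1 + w * (1 / (1 + 4 * Real.pi ^ 2 * y ^ 2)) =
          (1 + w + 4 * Real.pi ^ 2 * y ^ 2) / (1 + 4 * Real.pi ^ 2 * y ^ 2) := by
        field_simp
        ring
      rw [h5, one_pow]
      set P := 1 + 4 * Real.pi ^ 2 * y ^ 2 with hP
      set Q := 1 + w + 4 * Real.pi ^ 2 * y ^ 2 with hQ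
      have hP0 := h3.ne'
      have hQ0 := h4.ne'
      rw [pow_zero, mul_one, div_pow, mul_one]
      field_simp
      ring
    rw [h2] at h1
    exact (mul_eq_zero.mp h1).resolve_left (Real.sqrt_pos.mpr hw1).ne'
  | succ n ih =>
    intro w hw
    have h1 := Jn_deriv hEm hE n hw
    have h2 : HasDerivAt (Jn E n) 0 w := by
      refine (hasDerivAt_const w (0 : ℝ)).congr_of_eventuallyEq ?_
      have : ∀ᶠ v in 𝓝 w, |v| < 1 / 2 :=
        (continuous_abs.tendsto w).eventually (gt_mem_nhds hw)
      filter_upwards [this] with v hv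
      exact ih v hv
    have h3 := h1.unique h2
    have h4 : (-((n : ℝ) + 2)) ≠ 0 := by
      have : (0 : ℝ) ≤ n := Nat.cast_nonneg n
      linarith
    exact (mul_eq_zero.mp h3).resolve_left h4

theorem mom_zero (hEm : Measurable E) (hE : ∀ y, 0 < y → |E y| ≤ C0 * (1 + y))
    (h : ∀ a : ℝ, 0 < a → ∫ y in Ioi (0 : ℝ), E y * wr a y = 0) (n : ℕ) :
    ∫ y in Ioi (0 : ℝ), E y * wr 1 y * uu y ^ n = 0 := by
  have h1 := Jn_zero hEm hE h n (0 : ℝ) (by norm_num)
  unfold Jn at h1
  refine Eq.trans ?_ h1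
  refine integral_congr_ae (Eventually.of_forall fun y => ?_)
  simp

theorem cont_zero (hEm : Measurable E) (hE : ∀ y, 0 < y → |E y| ≤ C0 * (1 + y))
    (h : ∀ a : ℝ, 0 < a → ∫ y in Ioi (0 : ℝ), E y * wr a y = 0) {φ : ℝ → ℝ}
    (hφ : ContinuousOn φ (Icc 0 1)) : ∫ y in Ioi (0 : ℝ), E y * wr 1 y * φ (uu y) = 0 := by
  have hF := E_int hEm hE one_pos
  have hpi : ∀ p : Polynomial ℝ, Integrable (fun y => E y * wr 1 y * p.eval (uu y))
      (volume.restrict (Ioi (0 : ℝ))) := by
    intro p
    have hc : Continuous (fun y => p.eval (uu y)) := p.continuous.comp uu_cont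
    obtain ⟨B, hB⟩ := (isCompact_Icc (a := (0 : ℝ)) (b := 1)).exists_bound_of_continuousOn
      (f := fun x : ℝ => p.eval x) p.continuous.continuousOn
    refine (hF.norm.const_mul B).mono' ?_ (Eventually.of_forall fun y => ?_)
    · exact hF.aestronglyMeasurable.mul hc.measurable.aestronglyMeasurable
    · rw [norm_mul]
      have := hB (uu y) ⟨(uu_pos y).le, uu_le y⟩
      rw [mul_comm]
      exact mul_le_mul_of_nonneg_right this (norm_nonneg _)
  have hp0 : ∀ p : Polynomial ℝ, ∫ y in Ioi (0 : ℝ), E y * wr 1 y * p.eval (uu y) = 0 := by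
    intro p
    induction p using Polynomial.induction_on' with
    | add p q hp hq =>
      have e : (fun y => E y * wr 1 y * (p + q).eval (uu y)) =
          fun y => E y * wr 1 y * p.eval (uu y) + E y * wr 1 y * q.eval (uu y) := by
        funext y
        rw [Polynomial.eval_add]
        ring
      rw [e, integral_add (hpi p) (hpi q), hp, hq, add_zero]
    | monomial n c =>
      have e : (fun y => E y * wr 1 y * (Polynomial.monomial n c).eval (uu y)) =
          fun y => c * (E y * wr 1 y * uu y ^ n) := by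
        funext y
        rw [Polynomial.eval_monomial]
        ring
      rw [e, integral_const_mul, mom_zero hEm hE h, mul_zero]
  set Q := ∫ y in Ioi (0 : ℝ), ‖E y * wr 1 y‖ with hQ
  have hQ0 : 0 ≤ Q := integral_nonneg fun y => norm_nonneg _
  have hle : ∀ ε : ℝ, 0 < ε → |∫ y in Ioi (0 : ℝ), E y * wr 1 y * φ (uu y)| ≤ ε * Q := by
    intro ε hε
    obtain ⟨p, hp⟩ := exists_polynomial_near_of_continuousOn 0 1 φ hφ ε hε
    have hint : Integrable (fun y => E y * wr 1 y * φ (uu y)) (volume.restrict (Ioi (0 : ℝ))) := by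
      obtain ⟨B, hB⟩ := isCompact_Icc.exists_bound_of_continuousOn hφ
      refine (hF.norm.const_mul B).mono' ?_ (Eventually.of_forall fun y => ?_)
      · have hc : Continuous (fun y => φ (uu y)) := by
          rw [← continuousOn_univ]
          exact hφ.comp uu_cont.continuousOn (fun y _ => ⟨(uu_pos y).le, uu_le y⟩)
        exact hF.aestronglyMeasurable.mul hc.measurable.aestronglyMeasurable
      · rw [norm_mul]
        have := hB (uu y) ⟨(uu_pos y).le, uu_le y⟩
        rw [mul_comm]
        exact mul_le_mul_of_nonneg_right this (norm_nonneg _)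
    have e : ∫ y in Ioi (0 : ℝ), E y * wr 1 y * φ (uu y) =
        ∫ y in Ioi (0 : ℝ), E y * wr 1 y * (φ (uu y) - p.eval (uu y)) := by
      have e1 : (fun y => E y * wr 1 y * (φ (uu y) - p.eval (uu y))) =
          fun y => E y * wr 1 y * φ (uu y) - E y * wr 1 y * p.eval (uu y) := by
        funext y
        ring
      rw [e1, integral_sub hint (hpi p), hp0, sub_zero]
    rw [e, ← Real.norm_eq_abs, hQ, ← integral_const_mul]
    apply norm_integral_le_of_norm_le (hF.norm.const_mul ε)
    refine Eventually.of_forall fun y => ?_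
    rw [norm_mul, mul_comm]
    apply mul_le_mul_of_nonneg_right _ (norm_nonneg _)
    have := hp (uu y) ⟨(uu_pos y).le, uu_le y⟩
    rw [Real.norm_eq_abs, abs_sub_comm]
    exact this.le
  have : |∫ y in Ioi (0 : ℝ), E y * wr 1 y * φ (uu y)| ≤ 0 := by
    apply le_of_forall_pos_le_add
    intro ε hε
    have h1 := hle (ε / (Q + 1)) (by positivity)
    refine h1.trans ?_
    rw [zero_add, div_mul_eq_mul_div, div_le_iff₀ (by positivity)]
    nlinarith
  exact abs_nonpos_iff.mp this

theorem E_zero (hEm : Measurable E) (hE : ∀ y, 0 < y → |E y| ≤ C0 * (1 + y))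
    (h : ∀ a : ℝ, 0 < a → ∫ y in Ioi (0 : ℝ), E y * wr a y = 0) :
    ∀ᵐ y : ℝ, 0 < y → E y = 0 := by
  have hF := E_int hEm hE one_pos
  have hpi := Real.pi_pos
  have hI : Integrable ((Ioi (0 : ℝ)).indicator fun y => E y * wr 1 y) :=
    (integrable_indicator_iff measurableSet_Ioi).mpr hF
  have key : ∀ᵐ y : ℝ, ((Ioi (0 : ℝ)).indicator fun y => E y * wr 1 y) y = 0 := by
    refine ae_eq_zero_of_integral_contDiff_smul_eq_zero hI.locallyIntegrable ?_
    intro g hg hgc
    have e1 : ∫ x, g x • ((Ioi (0 : ℝ)).indicator fun y => E y * wr 1 y) x =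
        ∫ y in Ioi (0 : ℝ), E y * wr 1 y * g y := by
      rw [← integral_indicator measurableSet_Ioi]
      refine integral_congr_ae (Eventually.of_forall fun y => ?_)
      simp only [indicator, smul_eq_mul]
      split_ifs
      · ring
      · simp
    rw [e1]
    set φ : ℝ → ℝ := fun u => if u ≤ 0 then 0 else g (√(u⁻¹ - 1) / (2 * Real.pi)) with hφ
    have hval : ∀ y : ℝ, 0 < y → φ (uu y) = g y := by
      intro y hy
      rw [hφ]
      simp only
      rw [if_neg (not_le.mpr (uu_pos y))]
      congr 1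
      unfold uu
      rw [one_div, inv_inv]
      have : 1 + 4 * Real.pi ^ 2 * y ^ 2 - 1 = (2 * Real.pi * y) ^ 2 := by ring
      rw [this, Real.sqrt_sq (by positivity)]
      field_simp
    have e2 : ∫ y in Ioi (0 : ℝ), E y * wr 1 y * g y =
        ∫ y in Ioi (0 : ℝ), E y * wr 1 y * φ (uu y) := by
      refine setIntegral_congr_fun measurableSet_Ioi fun y hy => ?_
      show E y * wr 1 y * g y = E y * wr 1 y * φ (uu y)
      rw [hval y hy]
    rw [e2]
    apply cont_zero hEm hE h
    -- continuity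
    obtain ⟨R, hR⟩ := hgc.isCompact.isBounded.subset_closedBall 0
    have hgR : ∀ y : ℝ, R < |y| → g y = 0 := by
      intro y hy
      by_contra hne
      have h1 : y ∈ tsupport g := subset_tsupport g hne
      have h2 := hR h1
      rw [Metric.mem_closedBall, Real.dist_eq, sub_zero] at h2
      linarith
    intro x hx
    rcases eq_or_lt_of_le hx.1 with h0 | h0
    · -- at zero
      subst h0
      set K : ℝ := 1 + (2 * Real.pi * (|R| + 1)) ^ 2 with hK
      have hK0 : 0 < K := by positivity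
      have hev : ∀ᶠ u : ℝ in 𝓝 0, φ u = 0 := by
        have h1 : ∀ᶠ u : ℝ in 𝓝 0, u < K⁻¹ := gt_mem_nhds (by positivity)
        filter_upwards [h1] with u hu
        rw [hφ]
        simp only
        split_ifs with hu0
        · rfl
        · push Not at hu0
          apply hgR
          have h2 : K < u⁻¹ := by
            rw [lt_inv_comm₀ hK0 hu0]
            exact hu
          have h3 : 2 * Real.pi * (|R| + 1) ≤ √(u⁻¹ - 1) := by
            apply Real.le_sqrt_of_sq_le
            rw [hK] at h2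
            linarith
          rw [abs_of_nonneg (by positivity), lt_div_iff₀ (by positivity)]
          have h4 := le_abs_self R
          nlinarith
      have hφ0 : φ 0 = 0 := by
        rw [hφ]
        exact if_pos le_rfl
      have : ContinuousAt φ 0 := by
        unfold ContinuousAt
        rw [hφ0]
        exact (tendsto_congr' hev).mpr tendsto_const_nhds
      exact this.continuousWithinAt
    · have hca : ContinuousAt φ x := by
        have h1 : ∀ᶠ u in 𝓝 x, φ u = g (√(u⁻¹ - 1) / (2 * Real.pi)) := by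
          filter_upwards [lt_mem_nhds h0] with u hu
          rw [hφ]
          simp only
          rw [if_neg (not_le.mpr hu)]
        have h2 : ContinuousAt (fun u : ℝ => g (√(u⁻¹ - 1) / (2 * Real.pi))) x := by
          apply hg.continuous.continuousAt.comp
          have h3 : ContinuousAt (fun u : ℝ => u⁻¹ - 1) x :=
            (continuousAt_inv₀ h0.ne').sub continuousAt_const
          exact (Real.continuous_sqrt.continuousAt.comp h3).div_const _
        exact h2.congr (h1.mono fun u hu => hu.symm)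
      exact hca.continuousWithinAt
  filter_upwards [key] with y hy hy0
  rw [indicator_of_mem (show y ∈ Ioi (0 : ℝ) from hy0)] at hy
  exact (mul_eq_zero.mp hy).resolve_right (wr_pos one_pos hy0).ne'

/-- **Uniqueness from a set of scales which is not too sparse.** -/
theorem uniq_S (hEm : Measurable E) (hE : ∀ y, 0 < y → |E y| ≤ C0 * (1 + y)) {δ : ℝ} (hδ : 0 < δ)
    {S : Set ℝ} (hS1 : ∀ a ∈ S, δ ≤ a) (hS : ¬ Summable (fun a : S => 1 / (1 + (a : ℝ))))
    (h : ∀ a ∈ S, ∫ y in Ioi (0 : ℝ), E y * wr a y = 0) : ∀ᵐ y : ℝ, 0 < y → E y = 0 := by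
  have hδ2 : 0 < δ / 2 := by positivity
  have h1 := vanish' (H := Ph E) (fun z hz => (Ph_diff hEm hE hz).differentiableWithinAt) hδ
    (fun z hz => Ph_bound hE hδ2 hz) hS1 hS (fun a ha => by
      rw [Ph_real, h a ha, Complex.ofReal_zero])
  refine E_zero hEm hE fun a ha => ?_
  have h2 := h1 a (by simpa using ha)
  rw [Ph_real] at h2
  exact_mod_cast h2

end

end Q97.SS
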